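import Pool.Agent.H900.PN.Pf
import Pool.Graph.R_pool_sql_team_seeded_63374d34.N122.Lang

/-! # Algebraic elements are values of the Pfister form (Lang's theorem) -/

set_option autoImplicit false
set_option linter.unusedSectionVars false
set_option linter.unusedVariables false

namespace Pool.Agent.H900.PN

open MvPolynomial Module IntermediateField

noncomputable section

theorem lang_alg {Ω κ : Type} [Field Ω] [IsAlgClosed Ω] [Field κ] [Algebra Ω κ] {s : ℕ}
    {t : Fin s → κ} (ht : AlgebraicIndependent Ω t) {f : κ}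
    (hf : IsAlgebraic (IntermediateField.adjoin Ω (Set.range t)) f) :
    ∃ u v : Finset (Fin s) → κ, (u ≠ 0 ∨ v ≠ 0) ∧ pf t u + f * pf t v = 0 := by
  classical
  set F0 := IntermediateField.adjoin Ω (Set.range t) with hF0
  set L := IntermediateField.adjoin F0 {f} with hL
  have hfd : FiniteDimensional F0 L := IntermediateField.adjoin.finiteDimensional hf.isIntegral
  have htow : IsScalarTower Ω L κ := IsScalarTower.of_algebraMap_eq fun _ => rfl
  have hmem : ∀ i, t i ∈ F0 := fun i => IntermediateField.subset_adjoin _ _ ⟨i, rfl⟩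
  let tF : Fin s → F0 := fun i => ⟨t i, hmem i⟩
  let tL : Fin s → L := fun i => algebraMap F0 L (tF i)
  have hval : ∀ P : MvPolynomial (Fin s) Ω, ((aeval tL P : L) : κ) = aeval t P := by
    intro P
    have h1 := comp_aeval_apply tL (IsScalarTower.toAlgHom Ω L κ) P
    exact h1
  have hinj : Function.Injective (fun x : L => (x : κ)) := Subtype.val_injective
  let ω := finBasis F0 L
  have hE : ∀ c : F0, ∃ p q : MvPolynomial (Fin s) Ω, aeval t q ≠ 0 ∧
      (c : κ) * aeval t q = aeval t p := by
    intro c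
    obtain ⟨p, q, hpq⟩ := (mem_adjoin_range_iff Ω t (c : κ)).1 c.2
    by_cases hq : aeval t q = 0
    · rw [hq, div_zero] at hpq
      refine ⟨0, 1, ?_, ?_⟩
      · rw [map_one]
        exact one_ne_zero
      · rw [map_one, mul_one, map_zero, hpq]
    · exact ⟨p, q, hq, by rw [hpq, div_mul_cancel₀ _ hq]⟩
  have hcd : ∀ (c : Fin (finrank F0 L) → F0), ∃ h : MvPolynomial (Fin s) Ω, aeval t h ≠ 0 ∧
      ∃ p : Fin (finrank F0 L) → MvPolynomial (Fin s) Ω, ∀ j, aeval t h * (c j : κ) =
        aeval t (p j) := by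
    intro c
    choose p q hq hpq using fun j => hE (c j)
    refine ⟨∏ j, q j, ?_, fun j => p j * ∏ i ∈ Finset.univ.erase j, q i, ?_⟩
    · rw [map_prod]
      exact Finset.prod_ne_zero_iff.2 fun j _ => hq j
    · intro j
      rw [map_mul, ← hpq j, ← Finset.mul_prod_erase Finset.univ q (Finset.mem_univ j), map_mul]
      ring
  have hspan : ∀ z : L, ∃ h : MvPolynomial (Fin s) Ω, h ≠ 0 ∧
      ∃ p : Fin (finrank F0 L) → MvPolynomial (Fin s) Ω,
      aeval tL h * z = ∑ j, aeval tL (p j) * ω j := by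
    intro z
    obtain ⟨h, hh, p, hp⟩ := hcd (fun j => ω.repr z j)
    refine ⟨h, ?_, p, ?_⟩
    · rintro rfl
      exact hh (map_zero _)
    · conv_lhs => rw [← ω.sum_repr z]
      rw [Finset.mul_sum]
      refine Finset.sum_congr rfl fun j _ => ?_
      rw [Algebra.smul_def, ← mul_assoc]
      congr 1
      apply hinj
      show ((aeval tL h * algebraMap F0 L (ω.repr z j) : L) : κ) = ((aeval tL (p j) : L) : κ)
      rw [hval, ← hp j]
      show ((aeval tL h : L) : κ) * (ω.repr z j : κ) = _
      rw [hval]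
  have hlin : ∀ p : Fin (finrank F0 L) → MvPolynomial (Fin s) Ω,
      ∑ j, aeval tL (p j) * ω j = 0 → ∀ j, p j = 0 := by
    intro p hp j
    have hmemF : ∀ g : MvPolynomial (Fin s) Ω, aeval t g ∈ F0 := fun g =>
      (mem_adjoin_range_iff Ω t _).2 ⟨g, 1, by rw [map_one, div_one]⟩
    have h1 : ∑ j, (⟨aeval t (p j), hmemF _⟩ : F0) • ω j = 0 := by
      rw [← hp]
      refine Finset.sum_congr rfl fun j _ => ?_
      rw [Algebra.smul_def]
      congr 1
      apply hinj
      show aeval t (p j) = ((aeval tL (p j) : L) : κ)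
      rw [hval]
    have h2 := (Fintype.linearIndependent_iff.1 ω.linearIndependent) _ h1 j
    exact (algebraicIndependent_iff.1 ht) _ (congrArg Subtype.val h2)
  have htL : AlgebraicIndependent Ω tL := by
    refine AlgebraicIndependent.of_comp (IsScalarTower.toAlgHom Ω L κ) ?_
    exact ht
  -- the quadratic form
  let fL : L := ⟨f, IntermediateField.mem_adjoin_simple_self F0 f⟩
  let Ψ : Unit → MvPolynomial (Finset (Fin s) ⊕ Finset (Fin s)) L := fun _ =>
    ∑ S, C (∏ i ∈ S, tL i) * X (Sum.inl S) ^ 2 + C fL * ∑ S, C (∏ i ∈ S, tL i) * X (Sum.inr S) ^ 2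
  have hΨ : ∀ q, IsWeightedHomogeneous (fun _ => 1) (Ψ q) 2 := by
    intro q
    have h1 : ∀ (x : Finset (Fin s) ⊕ Finset (Fin s)) (c : L),
        IsWeightedHomogeneous (fun _ => (1 : ℕ)) (C c * X x ^ 2) 2 := by
      intro x c
      have h2 := (isWeightedHomogeneous_C (R := L)
        (fun _ : Finset (Fin s) ⊕ Finset (Fin s) => (1 : ℕ)) c).mul
        ((isWeightedHomogeneous_X (R := L) (fun _ => (1 : ℕ)) x).pow 2)
      simpa using h2
    refine IsWeightedHomogeneous.add ?_ ?_
    · exact IsWeightedHomogeneous.sum _ _ _ fun S _ => h1 _ _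
    · rw [Finset.mul_sum]
      refine IsWeightedHomogeneous.sum _ _ _ fun S _ => ?_
      rw [← mul_assoc, ← C_mul]
      exact h1 _ _
  obtain ⟨a, ha0, ha⟩ := Pool.Agent.N122.Lang.lang tL ω htL hspan hlin
    (fun _ : Finset (Fin s) ⊕ Finset (Fin s) => 1) (fun _ => le_rfl)
    (fun _ : Unit => 2) (fun _ => by norm_num) Ψ hΨ (by
      simp only [one_pow, Finset.sum_const, Finset.card_univ, smul_eq_mul, mul_one,
        Fintype.card_sum, Fintype.card_finset, Fintype.card_fin, Fintype.card_unit, one_mul]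
      have := Nat.pos_of_ne_zero (pow_ne_zero s (two_ne_zero (α := ℕ)))
      omega)
  refine ⟨fun S => (a (Sum.inl S) : κ), fun S => (a (Sum.inr S) : κ), ?_, ?_⟩
  · by_contra hcon
    push Not at hcon
    apply ha0
    funext x
    apply hinj
    rcases x with S | S
    · exact congrFun hcon.1 S
    · exact congrFun hcon.2 S
  · have h1 := congrArg (fun x : L => (x : κ)) (ha ())
    simp only [Ψ, map_add, map_mul, map_sum, map_pow, eval_C, eval_X] at h1
    unfold pf
    have h2 : ∀ (S : Finset (Fin s)), ((∏ i ∈ S, tL i : L) : κ) = ∏ i ∈ S, t i := by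
      intro S
      push_cast
      rfl
    push_cast at h1
    exact h1

/-- **Algebraic elements are values of the Pfister form.** -/
theorem vl_alg {Ω κ : Type} [Field Ω] [IsAlgClosed Ω] [Field κ] [Algebra Ω κ] {s : ℕ}
    {t : Fin s → κ} (ht : AlgebraicIndependent Ω t) (hA : Ani t) {e : κ} (he : e ^ 2 = -1) {f : κ}
    (hf : IsAlgebraic (IntermediateField.adjoin Ω (Set.range t)) f) : Vl t f := by
  obtain ⟨u, v, huv, h⟩ := lang_alg ht hf
  have hv : pf t v ≠ 0 := by
    intro hv
    rw [hv, mul_zero, add_zero] at h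
    have h1 := hA v hv
    have h2 := hA u h
    rcases huv with h3 | h3
    · exact h3 h2
    · exact h3 h1
  refine vl_of_mul (w := pf t v) ⟨v, rfl⟩ hv ?_
  have h1 : f * pf t v = -pf t u := by linear_combination h
  rw [h1]
  exact vl_neg he ⟨u, rfl⟩

end

end Pool.Agent.H900.PN
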