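import Pool.Agent.H900.PN.Np

/-! # Rational curves on the special cubic -/

set_option autoImplicit false
set_option linter.unusedSectionVars false
set_option linter.unusedVariables false

namespace Pool.Agent.H900.PN

open Polynomial

noncomputable section

/-- the special cubic at a vector -/
def spp {n : ℕ} {ι A : Type} [Fintype ι] [CommRing A] (D : Dat n ι) (i0 : ι) (t : ι → A)
    (y : Fin (n + 2) → A) : A :=
  spc D i0 t (y 0) (fun j => y j.castSucc.succ) (y (Fin.last (n + 1)))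

theorem spp_map {n : ℕ} {ι A B : Type} [Fintype ι] [CommRing A] [CommRing B] (f : A →+* B)
    (D : Dat n ι) (i0 : ι) (t : ι → A) (y : Fin (n + 2) → A) :
    f (spp D i0 t y) = spp D i0 (fun i => f (t i)) fun i => f (y i) := spc_map f D i0 t _ _ _

theorem spp_smul {n : ℕ} {ι A : Type} [Fintype ι] [CommRing A]
    (D : Dat n ι) (i0 : ι) (t : ι → A) (c : A) (y : Fin (n + 2) → A) :
    spp D i0 t (fun i => c * y i) = c ^ 3 * spp D i0 t y := spc_smul D i0 t c _ _ _

section cv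

variable {κ ι : Type} [Field κ] [Fintype ι] {t : ι → κ} {n : ℕ} (D : Dat n ι) {i0 : ι}

theorem exists_div {π : κ[X]} (hπ : Irreducible π) {Y : κ[X]} (hY : Y ≠ 0) :
    ∃ (a : ℕ) (y : κ[X]), Y = π ^ a * y ∧ ¬ π ∣ y :=
  ⟨_, (FiniteMultiplicity.of_prime_left hπ.prime hY).exists_eq_pow_mul_and_not_dvd⟩

theorem ev_of_curve {e : κ} (he : e ^ 2 = -1) {C0 C1 : κ[X]} {X : Fin n → κ[X]}
    (hΦ : spc D i0 (ct t) C0 X C1 = 0) (h0 : C0 ≠ 0) (h1 : C1 ≠ 0) : Ev t (C0 * C1) := by
  intro π m y hπ hiso hY hy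
  have : Fact (Irreducible π) := ⟨hπ⟩
  have hker : ∀ y, AdjoinRoot.mk π y = 0 ↔ π ∣ y := fun y => AdjoinRoot.mk_eq_zero
  have hA' : Ani (fun i => AdjoinRoot.mk π (ct t i)) := by
    intro v hv
    obtain ⟨u, hu⟩ : ∃ u : Finset ι → κ[X], ∀ S, AdjoinRoot.mk π (u S) = v S :=
      ⟨fun S => (AdjoinRoot.mk_surjective (v S)).choose,
        fun S => (AdjoinRoot.mk_surjective (v S)).choose_spec⟩
    rw [← funext hu, ← pf_map (AdjoinRoot.mk π), hker] at hv
    funext S
    rw [← hu S, Pi.zero_apply, hker]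
    by_contra hS
    exact hiso ⟨u, hv, S, hS⟩
  have he' : (AdjoinRoot.mk π (C e)) ^ 2 = -1 := by
    rw [← map_pow, ← map_pow, he, map_neg, map_neg, map_one, map_one]
  obtain ⟨a, y0, ha, hy0⟩ := exists_div hπ h0
  obtain ⟨b, y1, hb, hy1⟩ := exists_div hπ h1
  have hy0' : AdjoinRoot.mk π y0 ≠ 0 := fun h => hy0 ((hker _).1 h)
  have hy1' : AdjoinRoot.mk π y1 ≠ 0 := fun h => hy1 ((hker _).1 h)
  have hy' : AdjoinRoot.mk π y ≠ 0 := fun h => hy ((hker _).1 h)
  have e1 : π ^ m * y = π ^ (a + b) * (y0 * y1) := by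
    rw [← hY, ha, hb]
    ring
  obtain ⟨e2, -⟩ := exp_uniq hπ.ne_zero hker e1 hy' (by
    rw [map_mul]
    exact mul_ne_zero hy0' hy1')
  rw [e2]
  by_cases hab : a = b
  · exact ⟨a, by rw [hab]⟩
  · exact (ll D hπ.ne_zero hker hA' he' ha hy0' hb hy1' X hΦ hab).1

theorem end0 (hA : Ani t) {e : κ} (he : e ^ 2 = -1) {C0 C1 C0' C1' : κ[X]} {x x' : Fin n → κ[X]}
    (hΦ : spc D i0 (ct t) C0 x C1 = 0) (h0 : C0 ≠ 0) (h1 : C1 ≠ 0) {a : ℕ}
    (e0 : C0 = X ^ a * C0') (e1 : C1 = X ^ a * C1') (ex : ∀ j, x j = X ^ a * x' j)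
    (hne : constantCoeff C0' ≠ 0 ∨ constantCoeff C1' ≠ 0 ∨
      (fun j => constantCoeff (x' j)) ≠ 0) :
    Vl t (constantCoeff C0' * constantCoeff C1') ↔ Vl t (C0 * C1).trailingCoeff := by
  have hA' : Ani (fun i => constantCoeff (ct t i)) := by
    have : (fun i => constantCoeff (ct t i)) = t := by
      funext i
      simp
    rw [this]
    exact hA
  have hVl : ∀ v, Vl (fun i => constantCoeff (ct t i)) v ↔ Vl t v := by
    intro v
    have : (fun i => constantCoeff (ct t i)) = t := by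
      funext i
      simp
    rw [this]
  obtain ⟨a0, y0, ha, hy0⟩ := exists_div irreducible_X h0
  obtain ⟨a1, y1, hb, hy1⟩ := exists_div irreducible_X h1
  have hy0' : constantCoeff y0 ≠ 0 := fun h => hy0 ((ker_X _).1 h)
  have hy1' : constantCoeff y1 ≠ 0 := fun h => hy1 ((ker_X _).1 h)
  have htc : (C0 * C1).trailingCoeff = constantCoeff y0 * constantCoeff y1 := by
    rw [← map_mul]
    refine tc_of (a := a0 + a1) ?_ ?_
    · rw [ha, hb]
      ring
    · rw [map_mul]
      exact mul_ne_zero hy0' hy1'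
  rw [htc]
  have ha0 : a ≤ a0 := exp_le X_ne_zero ker_X (ha.symm.trans e0) hy0'
  have ha1 : a ≤ a1 := exp_le X_ne_zero ker_X (hb.symm.trans e1) hy1'
  by_cases h2 : a0 = a ∧ a1 = a
  · obtain ⟨h3, h4⟩ := h2
    subst h3
    rw [h4] at hb
    have h5 := mul_left_cancel₀ (pow_ne_zero _ X_ne_zero) (ha.symm.trans e0)
    have h6 := mul_left_cancel₀ (pow_ne_zero _ X_ne_zero) (hb.symm.trans e1)
    rw [h5, h6]
  have hz0 : a < a0 → constantCoeff C0' = 0 := by
    intro h
    by_contra hc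
    have := exp_le X_ne_zero ker_X (e0.symm.trans ha) hc
    omega
  have hz1 : a < a1 → constantCoeff C1' = 0 := by
    intro h
    by_contra hc
    have := exp_le X_ne_zero ker_X (e1.symm.trans hb) hc
    omega
  have hz : constantCoeff C0' * constantCoeff C1' = 0 := by
    rcases lt_or_eq_of_le ha0 with h3 | h3
    · rw [hz0 h3, zero_mul]
    · rcases lt_or_eq_of_le ha1 with h4 | h4
      · rw [hz1 h4, mul_zero]
      · exact absurd ⟨h3.symm, h4.symm⟩ h2
  rw [hz]
  refine ⟨fun _ => ?_, fun _ => vl_zero⟩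
  rw [← hVl]
  by_cases hab : a0 = a1
  · subst hab
    have hlt : a < a0 := by
      rcases lt_or_eq_of_le ha0 with h3 | h3
      · exact h3
      · exact absurd ⟨h3.symm, h3.symm⟩ h2
    refine ll2 D X_ne_zero ker_X hA' he ha hy0' hb hy1' ex ?_ hΦ hlt
    rcases hne with h3 | h3 | h3
    · exact absurd (hz0 hlt) h3
    · exact absurd (hz1 hlt) h3
    · exact h3
  · exact (ll D X_ne_zero ker_X hA' he ha hy0' hb hy1' x hΦ hab).2

theorem end0' (hA : Ani t) {e : κ} (he : e ^ 2 = -1) (Cc : Fin (n + 2) → κ[X])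
    (hΦ : spp D i0 (ct t) Cc = 0) (h0 : Cc 0 ≠ 0) (h1 : Cc (Fin.last (n + 1)) ≠ 0) {a : ℕ}
    (ha : ∀ i l, l < a → (Cc i).coeff l = 0) (ha0 : (fun i => (Cc i).coeff a) ≠ 0) :
    Vl t ((Cc 0).coeff a * (Cc (Fin.last (n + 1))).coeff a) ↔
      Vl t (Cc 0 * Cc (Fin.last (n + 1))).trailingCoeff := by
  have h2 : ∀ i, ∃ C', Cc i = X ^ a * C' := fun i => X_pow_dvd_iff.2 fun l hl => ha i l hl
  choose C' hC' using h2
  have h3 : ∀ i, (Cc i).coeff a = constantCoeff (C' i) := by
    intro i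
    have h4 := coeff_X_pow_mul (C' i) a 0
    rw [zero_add] at h4
    rw [hC' i, h4]
    rfl
  rw [h3, h3]
  refine end0 D hA he hΦ h0 h1 (hC' 0) (hC' _) (fun j => hC' _) ?_
  by_contra hcon
  push Not at hcon
  obtain ⟨e0, e1, e2⟩ := hcon
  apply ha0
  funext i
  rw [h3 i]
  refine Fin.cases e0 (fun i => ?_) i
  refine Fin.lastCases ?_ (fun j => ?_) i
  · rw [Fin.succ_last]
    exact e1
  · exact congrFun e2 j

theorem reflect_frac (b : ℕ) (f : κ[X]) (hf : f.natDegree ≤ b) :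
    algebraMap κ[X] (FractionRing κ[X]) (reflect b f) =
      (algebraMap κ[X] (FractionRing κ[X]) X) ^ b *
        eval₂RingHom ((algebraMap κ[X] (FractionRing κ[X])).comp C)
          (algebraMap κ[X] (FractionRing κ[X]) X)⁻¹ f := by
  set τ := algebraMap κ[X] (FractionRing κ[X]) X with hτ
  have hτ0 : τ ≠ 0 := by
    rw [hτ, Ne, IsFractionRing.to_map_eq_zero_iff]
    exact X_ne_zero
  let _ : Invertible τ⁻¹ := invertibleOfNonzero (inv_ne_zero hτ0)
  have h1 := eval₂_reflect_mul_pow ((algebraMap κ[X] (FractionRing κ[X])).comp C) τ⁻¹ b f hf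
  have h2 : ⅟(τ⁻¹) = τ := by
    rw [invOf_eq_inv, inv_inv]
  rw [h2] at h1
  have h3 : ∀ g : κ[X], eval₂ ((algebraMap κ[X] (FractionRing κ[X])).comp C) τ g =
      algebraMap κ[X] (FractionRing κ[X]) g := by
    intro g
    have h4 : eval₂RingHom ((algebraMap κ[X] (FractionRing κ[X])).comp C) τ =
        algebraMap κ[X] (FractionRing κ[X]) := by
      apply ringHom_ext
      · intro a
        simp
      · simp [hτ]
    exact DFunLike.congr_fun h4 g
  rw [h3] at h1
  show _ = τ ^ b * eval₂ _ τ⁻¹ f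
  rw [← h1, inv_pow]
  have h5 : τ ^ b ≠ 0 := pow_ne_zero _ hτ0
  field_simp

theorem spp_reflect {Cc : Fin (n + 2) → κ[X]} (hΦ : spp D i0 (ct t) Cc = 0) {b : ℕ}
    (hb : ∀ i, (Cc i).natDegree ≤ b) : spp D i0 (ct t) (fun i => reflect b (Cc i)) = 0 := by
  apply IsFractionRing.injective κ[X] (FractionRing κ[X])
  rw [spp_map, map_zero, funext fun i => reflect_frac b (Cc i) (hb i), spp_smul]
  have h1 : (fun i => algebraMap κ[X] (FractionRing κ[X]) (ct t i)) = fun i =>
      eval₂RingHom ((algebraMap κ[X] (FractionRing κ[X])).comp C)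
        (algebraMap κ[X] (FractionRing κ[X]) X)⁻¹ (ct t i) := by
    funext i
    simp [ct]
  rw [h1, ← spp_map, hΦ, map_zero, mul_zero]

theorem trail_reflect {f : κ[X]} {b : ℕ} (hf : f.natDegree ≤ b) :
    (reflect b f).trailingCoeff = f.leadingCoeff := by
  by_cases hf0 : f = 0
  · rw [hf0, reflect_zero]
    simp
  have h1 : reflect b f = X ^ (b - f.natDegree) * reverse f := by
    have h2 := reflect_mul f 1 (F := f.natDegree) (G := b - f.natDegree) le_rfl (by simp)
    have h3 : f.natDegree + (b - f.natDegree) = b := by omega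
    have h4 : reflect (b - f.natDegree) (1 : κ[X]) = X ^ (b - f.natDegree) := by
      have h5 := reflect_monomial (R := κ) (b - f.natDegree) 0
      rw [pow_zero, revAt_le (Nat.zero_le _), Nat.sub_zero] at h5
      exact h5
    rw [h3, mul_one, h4, mul_comm] at h2
    exact h2
  have h2 : constantCoeff (reverse f) = f.leadingCoeff := coeff_zero_reverse f
  rw [tc_of h1 (by rw [h2]; exact leadingCoeff_ne_zero.2 hf0), h2]

/-- **The class of a point of the special cubic is constant along rational curves.** -/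
theorem curve (hA : Ani t) {e : κ} (he : e ^ 2 = -1) (Cc : Fin (n + 2) → κ[X])
    (hΦ : spp D i0 (ct t) Cc = 0) {a b : ℕ}
    (ha : ∀ i l, l < a → (Cc i).coeff l = 0) (ha0 : (fun i => (Cc i).coeff a) ≠ 0)
    (hb : ∀ i l, b < l → (Cc i).coeff l = 0) (hb0 : (fun i => (Cc i).coeff b) ≠ 0) :
    Vl t ((Cc 0).coeff a * (Cc (Fin.last (n + 1))).coeff a) ↔
      Vl t ((Cc 0).coeff b * (Cc (Fin.last (n + 1))).coeff b) := by
  by_cases h0 : Cc 0 = 0
  · rw [h0, coeff_zero, coeff_zero, zero_mul, zero_mul]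
  by_cases h1 : Cc (Fin.last (n + 1)) = 0
  · rw [h1, coeff_zero, coeff_zero, mul_zero, mul_zero]
  have hdeg : ∀ i, (Cc i).natDegree ≤ b := fun i =>
    natDegree_le_iff_coeff_eq_zero.2 fun l hl => hb i l hl
  rw [end0' D hA he Cc hΦ h0 h1 ha ha0]
  have hr0 : ∀ f : κ[X], f ≠ 0 → reflect b f ≠ 0 := by
    intro f hf h
    exact hf ((reflect_eq_zero_iff).1 h)
  have h2 := end0' D hA he (fun i => reflect b (Cc i)) (spp_reflect D hΦ hdeg)
    (hr0 _ h0) (hr0 _ h1) (a := 0) (fun i l hl => absurd hl (Nat.not_lt_zero l)) (by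
      intro h
      apply hb0
      funext i
      have h3 := congrFun h i
      simp only [coeff_reflect, revAt_le (Nat.zero_le b), Nat.sub_zero] at h3
      exact h3)
  simp only [coeff_reflect, revAt_le (Nat.zero_le b), Nat.sub_zero] at h2
  rw [h2, trailingCoeff_mul, trailingCoeff_mul, trail_reflect (hdeg _), trail_reflect (hdeg _)]
  have h3 := norm_principle hA _ (Cc 0 * Cc (Fin.last (n + 1))) (mul_ne_zero h0 h1) le_rfl
    (ev_of_curve D he hΦ h0 h1)
  rw [leadingCoeff_mul, trailingCoeff_mul] at h3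
  have hl0 := leadingCoeff_ne_zero.2 h0
  have hl1 := leadingCoeff_ne_zero.2 h1
  have ht0 := trailingCoeff_nonzero_iff_nonzero.2 h0
  have ht1 := trailingCoeff_nonzero_iff_nonzero.2 h1
  constructor
  · intro h
    exact vl_of_mul h (mul_ne_zero ht0 ht1) h3
  · intro h
    refine vl_of_mul h (mul_ne_zero hl0 hl1) ?_
    rw [mul_comm]
    exact h3

end cv

end

end Pool.Agent.H900.PN
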