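import Pool.Agent.H900.PN.Mn
import Pool.Graph.R_pool_sql_team_seeded_3997aac3.Q251.CF.Prm

/-! # The generic member of the family is irreducible; the main theorem -/

set_option autoImplicit false
set_option linter.unusedSectionVars false
set_option linter.unusedVariables false

namespace Pool.Agent.H900.PN

open MvPolynomial FF Module Pool.Agent.Helper93K9.PAR Pool.Agent.H900.LF

noncomputable section

/-- a reducible cubic form has a linear factor -/
theorem lin_factor {k : Type} [Field k] {r : ℕ} {f : MvPolynomial (Fin r) k}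
    (hf : f.IsHomogeneous 3) (hf0 : f ≠ 0) (hirr : ¬ Irreducible f) :
    ∃ l q : MvPolynomial (Fin r) k, f = l * q ∧ l.IsHomogeneous 1 := by
  have hdeg : f.totalDegree = 3 := hf.totalDegree hf0
  have hun : ∀ a : MvPolynomial (Fin r) k, a ≠ 0 → a.totalDegree = 0 → IsUnit a := by
    intro a ha h
    have h1 := totalDegree_eq_zero_iff_eq_C.1 h
    rw [h1]
    refine IsUnit.map C (isUnit_iff_ne_zero.2 fun h2 => ha ?_)
    rw [h1, h2, C_0]
  have hnu : ¬ IsUnit f := by
    intro h
    obtain ⟨c, hc, hcf⟩ := isUnit_iff_eq_C_of_isReduced.1 h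
    rw [hcf, totalDegree_C] at hdeg
    omega
  rw [irreducible_iff] at hirr
  push Not at hirr
  obtain ⟨a, b, hab, ha, hb⟩ := hirr hnu
  have ha0 : a ≠ 0 := by
    rintro rfl
    rw [zero_mul] at hab
    exact hf0 hab
  have hb0 : b ≠ 0 := by
    rintro rfl
    rw [mul_zero] at hab
    exact hf0 hab
  have hsum : a.totalDegree + b.totalDegree = 3 := by
    rw [← totalDegree_mul_of_isDomain ha0 hb0, ← hab, hdeg]
  have ha1 : a.totalDegree ≠ 0 := fun h => ha (hun a ha0 h)
  have hb1 : b.totalDegree ≠ 0 := fun h => hb (hun b hb0 h)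
  have hah := Pool.Agent.Q251.CF.homog_of_dvd hf hf0 (G := a) ⟨b, hab⟩
  have hbh := Pool.Agent.Q251.CF.homog_of_dvd hf hf0 (G := b) ⟨a, by rw [hab, mul_comm]⟩
  have h3 : a.totalDegree = 1 ∨ b.totalDegree = 1 := by omega
  rcases h3 with h3 | h3
  · rw [h3] at hah
    exact ⟨a, b, hab, hah⟩
  · rw [h3] at hbh
    exact ⟨b, a, by rw [hab, mul_comm], hbh⟩

/-- the value of a linear form -/
theorem lin_aeval {k A : Type} [Field k] [CommRing A] [Algebra k A] {r : ℕ}
    {l : MvPolynomial (Fin r) k} (hl : l.IsHomogeneous 1) :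
    ∃ c : Fin r → k, ∀ y : Fin r → A, aeval y l = ∑ i, algebraMap k A (c i) * y i := by
  have h1 : l ∈ homogeneousSubmodule (Fin r) k 1 := (mem_homogeneousSubmodule 1 l).2 hl
  rw [homogeneousSubmodule_one_eq_span_X, Submodule.mem_span_range_iff_exists_fun] at h1
  obtain ⟨c, hc⟩ := h1
  refine ⟨c, fun y => ?_⟩
  rw [← hc, map_sum]
  refine Finset.sum_congr rfl fun i _ => ?_
  rw [map_smul, aeval_X, Algebra.smul_def]

section main

variable {s n m : ℕ} (D : Dat n (Fin s)) {i0 : Fin s} {j0 : Fin n}
    (hj0 : D.side j0 = false) (hj1 : D.sg j0 = {i0}) {T : Finset (Finset (Fin s))}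
    (hT0 : ∅ ∈ T) (hT1 : {i0} ∈ T) (hTD : ∀ j, D.sg j ∈ T)
    {F : Finset (Fin s) → MvPolynomial (Fin (n + 2)) ℂ} (hF : ∀ τ ∈ T, (F τ).IsHomogeneous 3)
    (hind : AlgebraicIndependent ℚ
      (fun p : T × {β : Fin (n + 2) →₀ ℕ // β.degree = 3} => coeff p.2.1 (F p.1)))

include hj0 hj1 hT0 hT1 hTD hF hind

theorem fam_irr : Irreducible (fam T F) := by
  classical
  by_contra hirr
  set f := fam T F with hfdef
  have hf : f.IsHomogeneous 3 := fam_hom hF
  have hco : ∀ l, coeff (Finsupp.single l 3) f ≠ 0 := fun l =>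
    fam_coeff hT0 _ (hind.ne_zero (⟨∅, hT0⟩, ⟨Finsupp.single l 3, Finsupp.degree_single _ _⟩))
  have hf0 : f ≠ 0 := by
    intro h
    apply hco 0
    rw [h, coeff_zero]
  obtain ⟨l, q, hlq, hl⟩ := lin_factor hf hf0 hirr
  let U := FractionRing (MvPolynomial (Fin n) (Kt s))
  obtain ⟨c, hc⟩ := lin_aeval (A := U) hl
  have hlast : c (Fin.last (n + 1)) ≠ 0 := by
    intro h0
    have h1 : aeval (Pi.single (Fin.last (n + 1)) 1 : Fin (n + 2) → U) f =
        algebraMap (Kt s) U (coeff (Finsupp.single (Fin.last (n + 1)) 3) f) :=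
      TrL.aeval_single hf _ _ (Pi.single_eq_same _ _) fun i hi => Pi.single_eq_of_ne hi _
    rw [hlq, map_mul, hc, Finset.sum_eq_single (Fin.last (n + 1)), h0, map_zero, zero_mul,
      zero_mul, ← hlq] at h1
    · exact hco (Fin.last (n + 1)) ((map_eq_zero _).1 h1.symm)
    · intro i _ hi
      rw [Pi.single_eq_of_ne hi, mul_zero]
    · intro h
      exact absurd (Finset.mem_univ _) h
  let xv : Fin n → U := fun j => algebraMap (MvPolynomial (Fin n) (Kt s)) U (X j)
  set z : Fin (n + 2) → U := Fin.cons 1 (Fin.snoc (α := fun _ => U) xv 0) with hz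
  let θ : U := -(∑ i, algebraMap (Kt s) U (c i) * z i) / algebraMap (Kt s) U
    (c (Fin.last (n + 1)))
  let g : Fin (n + 2) → U := Fin.cons 1 (Fin.snoc (α := fun _ => U) xv θ)
  have hzl : z (Fin.last (n + 1)) = 0 := by
    rw [hz, ← Fin.succ_last, Fin.cons_succ, Fin.snoc_last]
  have hgz : ∀ i, g i = z i + if i = Fin.last (n + 1) then θ else 0 := by
    intro i
    refine TrL.cases3 (P := fun i => g i = z i + if i = Fin.last (n + 1) then θ else 0)
      ?_ ?_ ?_ i
    · rw [if_neg (by
        intro h
        exact absurd (congrArg Fin.val h) (by simp)), add_zero]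
      rfl
    · intro j
      rw [if_neg (by
        intro h
        have h3 := congrArg Fin.val h
        simp only [Fin.val_succ, Fin.val_castSucc, Fin.val_last] at h3
        have := j.isLt
        omega), add_zero]
      show (Fin.cons 1 (Fin.snoc (α := fun _ => U) xv θ) : Fin (n + 2) → U) j.castSucc.succ = _
      rw [hz, Fin.cons_succ, Fin.cons_succ, Fin.snoc_castSucc, Fin.snoc_castSucc]
    · rw [if_pos rfl, hzl, zero_add]
      show (Fin.cons 1 (Fin.snoc (α := fun _ => U) xv θ) : Fin (n + 2) → U) (Fin.last (n + 1)) = θ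
      rw [← Fin.succ_last, Fin.cons_succ, Fin.snoc_last]
  have hg0 : g 0 = 1 := rfl
  have hgj : ∀ j : Fin n, g j.castSucc.succ = xv j := by
    intro j
    show (Fin.cons 1 (Fin.snoc (α := fun _ => U) xv θ) : Fin (n + 2) → U) j.castSucc.succ = _
    rw [Fin.cons_succ, Fin.snoc_castSucc]
  have hlg : aeval g l = 0 := by
    rw [hc]
    simp only [hgz, mul_add, Finset.sum_add_distrib]
    have h1 : ∑ i, algebraMap (Kt s) U (c i) * (if i = Fin.last (n + 1) then θ else 0) =
        algebraMap (Kt s) U (c (Fin.last (n + 1))) * θ := by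
      rw [Finset.sum_eq_single (Fin.last (n + 1))]
      · rw [if_pos rfl]
      · intro i _ hi
        rw [if_neg hi, mul_zero]
      · intro h
        exact absurd (Finset.mem_univ _) h
    rw [h1]
    have h2 : algebraMap (Kt s) U (c (Fin.last (n + 1))) ≠ 0 := by rwa [Ne, map_eq_zero]
    show _ + algebraMap (Kt s) U (c (Fin.last (n + 1))) * (-(∑ i, algebraMap (Kt s) U (c i) * z i) /
      algebraMap (Kt s) U (c (Fin.last (n + 1)))) = 0
    rw [mul_div_cancel₀ _ h2]
    ring
  have hfg : aeval g f = 0 := by rw [hlq, map_mul, hlg, zero_mul]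
  have hgne : g ≠ 0 := fun h => one_ne_zero (hg0.symm.trans (congrFun h 0))
  have hinf : Infinite (Kt s) := Infinite.of_injective _ (algebraMap ℂ (Kt s)).injective
  obtain ⟨p, -, hp⟩ := param_joined (N := n) hf g hgne hfg
  have hS : (Sum.elim (fun j : Fin n => g j.castSucc.succ / g 0) (Fin.elim0 : Fin 0 → U)) =
      xv ∘ (Equiv.sumEmpty (Fin n) (Fin 0)) := by
    funext v
    rcases v with v | v
    · show g v.castSucc.succ / g 0 = xv v
      rw [hgj, hg0, div_one]
    · exact Fin.elim0 v
  have hxi : AlgebraicIndependent (Kt s) xv := LF.vars_indep (Kt s) n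
  have htop : IntermediateField.adjoin (Kt s) (Set.range xv) = ⊤ := by
    rw [eq_top_iff]
    intro u _
    obtain ⟨a, b, -, rfl⟩ := IsFractionRing.div_surjective (A := MvPolynomial (Fin n) (Kt s)) u
    have hmem : ∀ P : MvPolynomial (Fin n) (Kt s), algebraMap _ U P ∈
        IntermediateField.adjoin (Kt s) (Set.range xv) := by
      intro P
      have h1 : algebraMap _ U P = aeval xv P := by
        have h2 := comp_aeval_apply (X : Fin n → MvPolynomial (Fin n) (Kt s))
          (IsScalarTower.toAlgHom (Kt s) (MvPolynomial (Fin n) (Kt s)) U) P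
        rw [aeval_X_left_apply] at h2
        exact h2
      rw [h1, aeval_def, eval₂_eq]
      exact sum_mem fun α _ => mul_mem (algebraMap_mem _ _)
        (prod_mem fun i _ => pow_mem
          (IntermediateField.subset_adjoin (Kt s) (Set.range xv) ⟨i, rfl⟩) _)
    exact div_mem (hmem a) (hmem b)
  refine main_odd (m := 0) D hj0 hj1 hT0 hT1 hTD hF hind g (Fin.elim0 : Fin 0 → U) hfg
    (by rw [hg0]; exact one_ne_zero) ?_ ?_ (fun i => algebraMap (Kt s) U (p i))
    (fun i => isAlgebraic_algebraMap _) (Relation.ReflTransGen.single hp)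
  · rw [hS, algebraicIndependent_equiv]
    exact hxi
  · have h1 : Set.range (Sum.elim (fun j : Fin n => g j.castSucc.succ / g 0)
        (Fin.elim0 : Fin 0 → U)) = Set.range xv := by
      rw [hS]
      exact (Equiv.sumEmpty (Fin n) (Fin 0)).surjective.range_comp _
    rw [h1, htop, IntermediateField.finrank_top]
    exact odd_one

/-- **The main theorem for independent coefficients.** -/
theorem main_aux {M : Type} [Field M] [Algebra (Kt s) M] (g : Fin (n + 2) → M) (R : Fin m → M)
    (hg0 : g ≠ 0) (hg : aeval g (fam T F) = 0) {ι' : Type} {y : ι' → M}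
    (hy : AlgebraicIndependent (Kt s) y) (hc : ((n + m : ℕ) : Cardinal) ≤ Cardinal.mk ι')
    (hodd : Odd (finrank (IntermediateField.adjoin (Kt s)
      ({z | ∃ i j, z = g i / g j} ∪ Set.range R)) M))
    (l : Fin (n + 2) → M) (hl : ∀ i, IsAlgebraic (Kt s) (l i)) :
    ¬ Relation.ReflTransGen (Joined (fam T F)) g l := by
  classical
  set f := fam T F with hfdef
  have hf : f.IsHomogeneous 3 := fam_hom hF
  have hco : ∀ l, coeff (Finsupp.single l 3) f ≠ 0 := fun l =>
    fam_coeff hT0 _ (hind.ne_zero (⟨∅, hT0⟩, ⟨Finsupp.single l 3, Finsupp.degree_single _ _⟩))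
  have hirr : Irreducible f := fam_irr D hj0 hj1 hT0 hT1 hTD hF hind
  set S : Set M := {z | ∃ i j, z = g i / g j} ∪ Set.range R with hS
  have halg : ∀ z : M, IsAlgebraic (IntermediateField.adjoin (Kt s) S) z := by
    intro z
    have : FiniteDimensional (IntermediateField.adjoin (Kt s) S) M :=
      FiniteDimensional.of_finrank_pos hodd.pos
    exact Algebra.IsAlgebraic.isAlgebraic z
  have hga := gp0 hf hco hg0 hg halg hy hc
  have hg00 := hga 0
  -- the cylinder
  let x : Fin (n + m + 2) → M := Fin.cons (g 0) (Fin.snoc (α := fun _ => M)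
    (Fin.append (fun j : Fin n => g j.castSucc.succ) fun l : Fin m => R l * g 0)
    (g (Fin.last (n + 1))))
  let rr : Fin (n + 2) → Fin (n + m + 2) := Fin.cons 0 (Fin.snoc (α := fun _ => Fin (n + m + 2))
    (fun j : Fin n => (Fin.castAdd m j).castSucc.succ) (Fin.last (n + m + 1)))
  have x0 : x 0 = g 0 := rfl
  have xl : x (Fin.last (n + m + 1)) = g (Fin.last (n + 1)) := by
    show (Fin.cons (g 0) (Fin.snoc (α := fun _ => M) (Fin.append (fun j : Fin n =>
      g j.castSucc.succ) fun l : Fin m => R l * g 0) (g (Fin.last (n + 1)))) :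
        Fin (n + m + 2) → M) (Fin.last (n + m + 1)) = _
    rw [← Fin.succ_last (n + m), Fin.cons_succ, Fin.snoc_last]
  have xm : ∀ i : Fin (n + m), x i.castSucc.succ = (Fin.append (fun j : Fin n =>
      g j.castSucc.succ) fun l : Fin m => R l * g 0) i := by
    intro i
    show (Fin.cons (g 0) (Fin.snoc (α := fun _ => M) (Fin.append (fun j : Fin n =>
      g j.castSucc.succ) fun l : Fin m => R l * g 0) (g (Fin.last (n + 1)))) :
        Fin (n + m + 2) → M) i.castSucc.succ = _
    rw [Fin.cons_succ, Fin.snoc_castSucc]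
  have r0 : rr 0 = 0 := rfl
  have rl : rr (Fin.last (n + 1)) = Fin.last (n + m + 1) := by
    show (Fin.cons 0 (Fin.snoc (α := fun _ => Fin (n + m + 2))
      (fun j : Fin n => (Fin.castAdd m j).castSucc.succ) (Fin.last (n + m + 1))) :
        Fin (n + 2) → Fin (n + m + 2)) (Fin.last (n + 1)) = _
    rw [← Fin.succ_last n, Fin.cons_succ, Fin.snoc_last]
  have rm : ∀ j : Fin n, rr j.castSucc.succ = (Fin.castAdd m j).castSucc.succ := by
    intro j
    show (Fin.cons 0 (Fin.snoc (α := fun _ => Fin (n + m + 2))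
      (fun j : Fin n => (Fin.castAdd m j).castSucc.succ) (Fin.last (n + m + 1))) :
        Fin (n + 2) → Fin (n + m + 2)) j.castSucc.succ = _
    rw [Fin.cons_succ, Fin.snoc_castSucc]
  have hxr : ∀ i, x (rr i) = g i := by
    intro i
    refine TrL.cases3 (P := fun i => x (rr i) = g i) ?_ ?_ ?_ i
    · rw [r0, x0]
    · intro j
      rw [rm, xm, Fin.append_left]
    · rw [rl, xl]
  have rinj : Function.Injective rr := by
    have hval : ∀ i, (rr i).val = if i = Fin.last (n + 1) then n + m + 1 else i.val := by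
      intro i
      refine TrL.cases3 (P := fun i => (rr i).val = if i = Fin.last (n + 1) then n + m + 1
        else i.val) ?_ ?_ ?_ i
      · rw [r0, if_neg (by
          intro h
          exact absurd (congrArg Fin.val h) (by simp))]
        rfl
      · intro j
        rw [rm, if_neg (by
          intro h
          have h3 := congrArg Fin.val h
          simp only [Fin.val_succ, Fin.val_castSucc, Fin.val_last] at h3
          have := j.isLt
          omega)]
        rfl
      · rw [rl, if_pos rfl]
        rfl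
    intro i j h
    have h1 := congrArg Fin.val h
    rw [hval, hval] at h1
    have hi := i.isLt
    have hj := j.isLt
    have hil : i ≠ Fin.last (n + 1) → i.val < n + 1 := fun h => Fin.val_lt_last h
    have hjl : j ≠ Fin.last (n + 1) → j.val < n + 1 := fun h => Fin.val_lt_last h
    by_cases h2 : i = Fin.last (n + 1) <;> by_cases h3 : j = Fin.last (n + 1)
    · rw [h2, h3]
    · rw [if_pos h2, if_neg h3] at h1
      have := hjl h3
      omega
    · rw [if_neg h2, if_pos h3] at h1
      have := hil h2
      omega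
    · rw [if_neg h2, if_neg h3] at h1
      exact Fin.ext h1
  have hF' : (rename rr f).IsHomogeneous 3 := hf.rename_isHomogeneous
  have hirr' : Irreducible (rename rr f) := by
    have h1 : Prime f := hirr.prime
    let e := Equiv.ofInjective rr rinj
    have h2 : Prime (renameEquiv (Kt s) e f) := (MulEquiv.prime_iff (renameEquiv (Kt s) e)).2 h1
    have h3 : Prime (rename (Subtype.val : Set.range rr → Fin (n + m + 2))
        (renameEquiv (Kt s) e f)) := (prime_rename_iff _).2 h2
    rw [renameEquiv_apply, rename_rename] at h3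
    exact h3.irreducible
  have hlast' : coeff (Finsupp.single (Fin.last (n + m + 1)) 3) (rename rr f) ≠ 0 := by
    have h1 : aeval (Pi.single (Fin.last (n + m + 1)) 1 : Fin (n + m + 2) → Kt s)
        (rename rr f) = coeff (Finsupp.single (Fin.last (n + m + 1)) 3) (rename rr f) :=
      TrL.aeval_single hF' _ _ (Pi.single_eq_same _ _) fun i hi => Pi.single_eq_of_ne hi _
    rw [← h1, aeval_rename]
    have h2 := TrL.aeval_single (R := Kt s) hf (Fin.last (n + 1))
      ((Pi.single (Fin.last (n + m + 1)) 1 : Fin (n + m + 2) → Kt s) ∘ rr) (by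
        rw [Function.comp_apply, rl, Pi.single_eq_same]) (fun i hi => by
        rw [Function.comp_apply, Pi.single_eq_of_ne]
        intro h
        exact hi (rinj (h.trans rl.symm)))
    rw [h2]
    exact hco _
  have hxf : aeval x (rename rr f) = 0 := by
    rw [aeval_rename, show x ∘ rr = g from funext hxr, hg]
  have hx0 : x 0 ≠ 0 := hg00
  have hyx : ∀ i : Fin (n + m), yx x i =
      (Fin.append (fun j : Fin n => g j.castSucc.succ / g 0) R : Fin (n + m) → M) i := by
    intro i
    unfold yx
    rw [xm, x0]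
    refine Fin.addCases (fun j => ?_) (fun l => ?_) i
    · rw [Fin.append_left, Fin.append_left]
    · rw [Fin.append_right, Fin.append_right, mul_div_cancel_right₀ _ hg00]
  have hyxe : yx x = (Sum.elim (fun j : Fin n => g j.castSucc.succ / g 0) R) ∘
      finSumFinEquiv.symm := by
    funext i
    rw [hyx]
    refine Fin.addCases (fun j => ?_) (fun l => ?_) i
    · rw [Fin.append_left, Function.comp_apply, finSumFinEquiv_symm_apply_castAdd]
      rfl
    · rw [Fin.append_right, Function.comp_apply, finSumFinEquiv_symm_apply_natAdd]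
      rfl
  have hrf : rf (Kt s) x = IntermediateField.adjoin (Kt s) S := by
    have hall : ∀ a, x a / g 0 ∈ IntermediateField.adjoin (Kt s) S := by
      intro a
      refine TrL.cases3 (P := fun a => x a / g 0 ∈ IntermediateField.adjoin (Kt s) S) ?_ ?_ ?_ a
      · rw [x0, div_self hg00]
        exact one_mem _
      · intro i
        rw [xm]
        refine Fin.addCases (fun j => ?_) (fun l => ?_) i
        · rw [Fin.append_left]
          exact IntermediateField.subset_adjoin _ _ (Or.inl ⟨_, _, rfl⟩)
        · rw [Fin.append_right, mul_div_cancel_right₀ _ hg00]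
          exact IntermediateField.subset_adjoin _ _ (Or.inr ⟨_, rfl⟩)
      · rw [xl]
        exact IntermediateField.subset_adjoin _ _ (Or.inl ⟨_, _, rfl⟩)
    apply le_antisymm
    · rw [rf, IntermediateField.adjoin_le_iff]
      rintro _ ⟨i, j, rfl⟩
      rw [← div_div_div_cancel_right₀ hg00]
      exact div_mem (hall i) (hall j)
    · rw [IntermediateField.adjoin_le_iff]
      rintro _ (⟨i, j, rfl⟩ | ⟨l, rfl⟩)
      · exact IntermediateField.subset_adjoin _ _ ⟨rr i, rr j, by rw [hxr, hxr]⟩
      · refine IntermediateField.subset_adjoin _ _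
          ⟨(Fin.natAdd n l).castSucc.succ, 0, ?_⟩
        rw [xm, Fin.append_right, x0, mul_div_cancel_right₀ _ hg00]
  have hxi : AlgebraicIndependent (Kt s) (yx x) := by
    refine Pool.Agent.X328.FD.indep_count (y := y) (alg_of_gens _ {z | ∃ i j, z = x i / x j}
      ?_ ?_) hy ?_
    · have h1 : ∀ a, IsAlgebraic (IntermediateField.adjoin (Kt s) (Set.range (yx x)))
          (x a / x 0) := by
        refine TrL.cases3 (P := fun a => IsAlgebraic
          (IntermediateField.adjoin (Kt s) (Set.range (yx x))) (x a / x 0)) ?_ ?_ ?_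
        · rw [div_self hx0]
          exact isAlgebraic_one
        · intro i
          exact alg_mem (IntermediateField.subset_adjoin _ _ ⟨i, rfl⟩)
        · exact alg_last hF' hlast' hxf hx0
      rintro _ ⟨i, j, rfl⟩
      rw [← div_div_div_cancel_right₀ hx0]
      rw [div_eq_mul_inv]
      exact (h1 i).mul (h1 j).inv
    · have h2 : IntermediateField.adjoin (Kt s) {z | ∃ i j, z = x i / x j} =
          IntermediateField.adjoin (Kt s) S := hrf
      rw [h2]
      exact halg
    · rw [Cardinal.mk_fin]
      exact hc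
  have hcub := cub (Kt s) M (n + m) (rename rr f) hF' hirr' hlast' x
  have hgen := hcub.2 hxf hx0 hxi
  have hdeg := (hcub.1 hgen).2.2
  have hoddx : Odd (finrank (Kc (Kt s) (yx x)) M) := by
    rw [hdeg, hrf]
    exact (by decide : Odd 3).mul hodd
  have hran : Set.range (Sum.elim (fun j : Fin n => g j.castSucc.succ / g 0) R) =
      Set.range (yx x) := by
    rw [hyxe]
    exact (finSumFinEquiv.symm.surjective.range_comp _).symm
  refine main_odd D hj0 hj1 hT0 hT1 hTD hF hind g R hg hg00 ?_ ?_ l hl
  · rw [hyxe, algebraicIndependent_equiv] at hxi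
    exact hxi
  · rw [hran]
    exact hoddx

end main

end

end Pool.Agent.H900.PN
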