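import Pool.Agent.H900.PN.Ap
import Pool.Graph.R_seed8.R845.E3.Spr
import Pool.Graph.R_pool_sql_team_seeded_64922ed1.X328.FD.Core

/-! # The Pfister form of the residue field is anisotropic -/

set_option autoImplicit false
set_option linter.unusedSectionVars false
set_option linter.unusedVariables false

namespace Pool.Agent.H900.PN

open MvPolynomial Pool.Agent.H900.LF Module

noncomputable section

/-- descent for diagonal forms -/
theorem odd_diag {K : Type} [Field K] [CharZero K] {R : Type} [CommRing R] [Algebra K R]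
    {M : Type} [Field M] [Algebra K M] (ψ : R →ₐ[K] M)
    (hodd : Odd (finrank (IntermediateField.adjoin K (Set.range ψ)) M))
    {J : Type} [Fintype J] (c : J → R) (z : J → M) (hz : z ≠ 0)
    (h : ∑ j, ψ (c j) * z j ^ 2 = 0) :
    ∃ r : J → R, (∃ i, ψ (r i) ≠ 0) ∧ ψ (∑ j, c j * r j ^ 2) = 0 := by
  classical
  let ε := Fintype.equivFin J
  obtain ⟨j0, hj0⟩ := Function.ne_iff.1 hz
  obtain ⟨r, ⟨i0, hi0⟩, hr⟩ := Pool.Agent.R845.E3.odd_descentK ψ hodd
    (fun i j => if i = j then c (ε.symm i) else 0) (fun i => z (ε.symm i))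
    ⟨ε j0, by rw [Equiv.symm_apply_apply]; exact hj0⟩ (by
      rw [← h, ← Equiv.sum_comp ε.symm]
      refine Finset.sum_congr rfl fun i _ => ?_
      rw [Finset.sum_eq_single i]
      · rw [if_pos rfl]
        ring
      · intro j _ hj
        rw [if_neg (Ne.symm hj), map_zero]
        ring
      · intro h
        exact absurd (Finset.mem_univ _) h)
  refine ⟨fun j => r (ε j), ⟨ε.symm i0, by beta_reduce; rw [Equiv.apply_symm_apply]; exact hi0⟩, ?_⟩
  rw [← hr]
  congr 1
  rw [← Equiv.sum_comp ε.symm]
  refine Finset.sum_congr rfl fun i _ => ?_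
  rw [Finset.sum_eq_single i]
  · beta_reduce
    rw [if_pos rfl, Equiv.apply_symm_apply]
    ring
  · intro j _ hj
    rw [if_neg (Ne.symm hj)]
    ring
  · intro h
    exact absurd (Finset.mem_univ _) h

section rf

variable {Ω κ μ : Type} [Field Ω] [CharZero Ω] [Field κ] [Algebra Ω κ] [Finite μ] {n s : ℕ}
  (D : Dat n (Fin s)) (i0 : Fin s) {t : Fin s → κ} {x : Fin n → κ} {R : μ → κ} {y : κ}

/-- the parameters -/
def uu (t : Fin s → κ) (x : Fin n → κ) (R : μ → κ) : Sg s n μ → κ :=
  Sum.elim t (Sum.elim x R)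

/-- the factor of a variable -/
def ybv (y : κ) (j : Fin n) : κ := if D.side j = true then y else 1

/-- the denominator -/
def Av (t : Fin s → κ) (x : Fin n → κ) (y : κ) : κ :=
  ∑ j, (if i0 ∈ D.sg j then (∏ i ∈ (D.sg j).erase i0, t i) * ybv D y j * x j ^ 2 else 0) + y ^ 2

/-- the numerator -/
def Bv (t : Fin s → κ) (x : Fin n → κ) (y : κ) : κ :=
  ∑ j, (if i0 ∈ D.sg j then 0 else (∏ i ∈ D.sg j, t i) * ybv D y j * x j ^ 2) + (y + y ^ 3)

theorem rel (h : spc D i0 t 1 x y = 0) : Bv D i0 t x y + t i0 * Av D i0 t x y = 0 := by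
  rw [← h]
  unfold spc Bv Av qf
  have h1 : ∑ j, (if i0 ∈ D.sg j then 0 else (∏ i ∈ D.sg j, t i) * ybv D y j * x j ^ 2) +
      t i0 * ∑ j, (if i0 ∈ D.sg j then (∏ i ∈ (D.sg j).erase i0, t i) * ybv D y j * x j ^ 2
        else 0) = (∑ j, if D.side j = false then (∏ i ∈ D.sg j, t i) * x j ^ 2 else 0) +
      y * ∑ j, if D.side j = true then (∏ i ∈ D.sg j, t i) * x j ^ 2 else 0 := by
    rw [Finset.mul_sum, Finset.mul_sum, ← Finset.sum_add_distrib, ← Finset.sum_add_distrib]
    refine Finset.sum_congr rfl fun j _ => ?_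
    have h2 : (if i0 ∈ D.sg j then 0 else (∏ i ∈ D.sg j, t i) * ybv D y j * x j ^ 2) +
        t i0 * (if i0 ∈ D.sg j then (∏ i ∈ (D.sg j).erase i0, t i) * ybv D y j * x j ^ 2
        else 0) = (∏ i ∈ D.sg j, t i) * ybv D y j * x j ^ 2 := by
      split_ifs with h3
      · rw [← Finset.mul_prod_erase _ _ h3]
        ring
      · ring
    rw [h2]
    unfold ybv
    by_cases h3 : D.side j = true
    · rw [if_pos h3, if_pos h3, if_neg (by rw [h3]; decide)]
      ring
    · rw [if_neg h3, if_neg h3, if_pos (by simpa using h3)]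
      ring
  linear_combination h1

theorem uu_mem {A : IntermediateField Ω κ} (hA : ∀ v, uu t x R v ∈ A) (S : Finset (Fin s)) :
    ∏ i ∈ S, t i ∈ A := prod_mem fun i _ => hA (Sum.inl i)

/-- the denominator does not vanish -/
theorem Av_ne {j0 : Fin n} (hj0 : D.side j0 = false) (hj1 : D.sg j0 = {i0})
    (hi : AlgebraicIndependent Ω (uu t x R)) (h : spc D i0 t 1 x y = 0) :
    Av D i0 t x y ≠ 0 := by
  classical
  intro hA
  have hr := rel D i0 h
  have hB : Bv D i0 t x y = 0 := by rw [hA, mul_zero, add_zero] at hr; exact hr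
  set v0 : Sg s n μ := Sum.inr (Sum.inl j0) with hv0
  set F2 : IntermediateField Ω κ := IntermediateField.adjoin Ω (uu t x R '' {v0}ᶜ) with hF2
  have hmem : ∀ v, v ≠ v0 → uu t x R v ∈ F2 := fun v hv =>
    IntermediateField.subset_adjoin _ _ ⟨v, hv, rfl⟩
  have ht : ∀ i, t i ∈ F2 := fun i => hmem (Sum.inl i) (by simp [hv0])
  have hx : ∀ j, j ≠ j0 → x j ∈ F2 := fun j hj => hmem (Sum.inr (Sum.inl j)) (by simpa [hv0])
  -- `y` is algebraic
  have hy : IsAlgebraic F2 y := by
    have hc1 : ∀ b : Bool, (∑ j, if i0 ∈ D.sg j then (0 : κ) else if D.side j = b then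
        (∏ i ∈ D.sg j, t i) * x j ^ 2 else 0) ∈ F2 := by
      intro b
      refine sum_mem fun j _ => ?_
      split_ifs with h1 h2
      · exact zero_mem _
      · refine mul_mem (prod_mem fun i _ => ht i) (pow_mem (hx j ?_) 2)
        rintro rfl
        rw [hj1] at h1
        exact h1 (Finset.mem_singleton_self _)
      · exact zero_mem _
    have hB2 : y ^ 3 + ((∑ j, if i0 ∈ D.sg j then (0 : κ) else if D.side j = true then
        (∏ i ∈ D.sg j, t i) * x j ^ 2 else 0) + 1) * y + (∑ j, if i0 ∈ D.sg j then (0 : κ)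
        else if D.side j = false then (∏ i ∈ D.sg j, t i) * x j ^ 2 else 0) = 0 := by
      refine Eq.trans ?_ hB
      unfold Bv
      have h1 : ∑ j, (if i0 ∈ D.sg j then 0 else (∏ i ∈ D.sg j, t i) * ybv D y j * x j ^ 2) =
          (∑ j, if i0 ∈ D.sg j then (0 : κ) else if D.side j = true then
        (∏ i ∈ D.sg j, t i) * x j ^ 2 else 0) * y + ∑ j, if i0 ∈ D.sg j then (0 : κ)
        else if D.side j = false then (∏ i ∈ D.sg j, t i) * x j ^ 2 else 0 := by
        rw [Finset.sum_mul, ← Finset.sum_add_distrib]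
        refine Finset.sum_congr rfl fun j _ => ?_
        unfold ybv
        by_cases h2 : i0 ∈ D.sg j
        · simp only [if_pos h2]
          ring
        · simp only [if_neg h2]
          by_cases h3 : D.side j = true
          · rw [if_pos h3, if_pos h3, if_neg (by rw [h3]; decide)]
            ring
          · rw [if_neg h3, if_neg h3, if_pos (by simpa using h3)]
            ring
      rw [h1]
      ring
    set b1 : F2 := ⟨_, add_mem (hc1 true) (one_mem F2)⟩ with hb1
    set b0 : F2 := ⟨_, hc1 false⟩ with hb0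
    refine ⟨Polynomial.X ^ 3 + Polynomial.C b1 * Polynomial.X + Polynomial.C b0, ?_, ?_⟩
    · intro h0
      have h1 := congrArg (fun P => Polynomial.coeff P 3) h0
      simp only [Polynomial.coeff_add, Polynomial.coeff_X_pow, Polynomial.coeff_C_mul,
        Polynomial.coeff_X, Polynomial.coeff_C, Polynomial.coeff_zero] at h1
      norm_num at h1
    · rw [map_add, map_add, map_mul, map_pow, Polynomial.aeval_X, Polynomial.aeval_C,
        Polynomial.aeval_C]
      exact hB2
  -- `x j0` is algebraic
  have hxj : IsAlgebraic (F2 ⊔ IntermediateField.adjoin Ω {y} : IntermediateField Ω κ)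
      (x j0) := by
    set F3 : IntermediateField Ω κ := F2 ⊔ IntermediateField.adjoin Ω {y} with hF3
    have h23 : F2 ≤ F3 := le_sup_left
    have hyF : y ∈ F3 := (le_sup_right : IntermediateField.adjoin Ω {y} ≤ F3)
      (IntermediateField.mem_adjoin_simple_self Ω y)
    have hyb : ∀ j, ybv D y j ∈ F3 := by
      intro j
      unfold ybv
      split_ifs
      · exact hyF
      · exact one_mem _
    have h1 : x j0 ^ 2 ∈ F3 := by
      have h2 : x j0 ^ 2 = -(∑ j ∈ Finset.univ.erase j0, (if i0 ∈ D.sg j then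
          (∏ i ∈ (D.sg j).erase i0, t i) * ybv D y j * x j ^ 2 else 0) + y ^ 2) := by
        have h3 := hA
        unfold Av at h3
        rw [← Finset.add_sum_erase _ _ (Finset.mem_univ j0)] at h3
        have h4 : (if i0 ∈ D.sg j0 then (∏ i ∈ (D.sg j0).erase i0, t i) * ybv D y j0 * x j0 ^ 2
            else 0) = x j0 ^ 2 := by
          rw [if_pos (by rw [hj1]; exact Finset.mem_singleton_self i0), hj1,
            Finset.erase_singleton, Finset.prod_empty, one_mul]
          unfold ybv
          rw [if_neg (by rw [hj0]; decide), one_mul]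
        rw [h4] at h3
        linear_combination h3
      rw [h2]
      refine neg_mem (add_mem (sum_mem fun j hj => ?_) (pow_mem hyF 2))
      split_ifs
      · exact mul_mem (mul_mem (prod_mem fun i _ => h23 (ht i)) (hyb j))
          (pow_mem (h23 (hx j (Finset.ne_of_mem_erase hj))) 2)
      · exact zero_mem _
    refine (IsIntegral.of_pow (n := 2) (by norm_num) ?_).isAlgebraic
    have h5 : x j0 ^ 2 = algebraMap F3 κ ⟨_, h1⟩ := rfl
    rw [h5]
    exact isIntegral_algebraMap
  have hxa : IsAlgebraic F2 (x j0) := by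
    refine Pool.Agent.X328.FD.alg_trans le_sup_left (Pool.Agent.X328.FD.alg_sup ?_) hxj
    intro z hz
    rw [Set.mem_singleton_iff] at hz
    rw [hz]
    exact hy
  have hbot : AlgebraicIndependent (⊥ : IntermediateField Ω κ) (uu t x R) := by
    have h1 : (⊥ : IntermediateField Ω κ) = IntermediateField.adjoin Ω
      (Set.range (Fin.elim0 : Fin 0 → κ)) := by
      rw [Set.range_eq_empty, IntermediateField.adjoin_empty]
    rw [h1]
    apply Pool.Agent.X328.FD.indep_over
    have h2 : (Sum.elim (uu t x R) (Fin.elim0 : Fin 0 → κ)) =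
        uu t x R ∘ (Equiv.sumEmpty _ (Fin 0)) := by
      funext v
      rcases v with v | v
      · rfl
      · exact Fin.elim0 v
    rw [h2, algebraicIndependent_equiv]
    exact hi
  have h3 := Pool.Agent.X328.FD.trans_field hbot (s := {v0}ᶜ) (i := v0) (by simp)
  rw [bot_sup_eq] at h3
  exact h3 hxa

/-- the new parameters -/
def vv (i0 : Fin s) (t : Fin s → κ) (x : Fin n → κ) (R : μ → κ) (y : κ) : Sg s n μ → κ :=
  Sum.elim (fun i => if i = i0 then y else t i) (Sum.elim x R)

theorem aeval_AP : aeval (vv i0 t x R y) (AP D i0 : MvPolynomial (Sg s n μ) Ω) =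
    Av D i0 t x y := by
  unfold AP Av
  rw [map_add, map_sum, map_pow, aeval_X]
  have h1 : vv i0 t x R y (Sum.inl i0) = y := if_pos rfl
  rw [h1]
  congr 1
  refine Finset.sum_congr rfl fun j _ => ?_
  split_ifs with h
  · rw [map_mul, map_mul, map_prod, map_pow, aeval_X]
    congr 2
    · refine Finset.prod_congr rfl fun i hi => ?_
      rw [aeval_X]
      exact if_neg (Finset.ne_of_mem_erase hi)
    · unfold yb ybv
      split_ifs
      · rw [aeval_X, h1]
      · rw [map_one]
  · rw [map_zero]

theorem aeval_BP : aeval (vv i0 t x R y) (BP D i0 : MvPolynomial (Sg s n μ) Ω) =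
    Bv D i0 t x y := by
  unfold BP Bv
  rw [map_add, map_sum, map_add, map_pow, aeval_X]
  have h1 : vv i0 t x R y (Sum.inl i0) = y := if_pos rfl
  rw [h1]
  congr 1
  refine Finset.sum_congr rfl fun j _ => ?_
  split_ifs with h
  · rw [map_zero]
  · rw [map_mul, map_mul, map_prod, map_pow, aeval_X]
    congr 2
    · refine Finset.prod_congr rfl fun i hi => ?_
      rw [aeval_X]
      exact if_neg fun h' : i = i0 => h (h' ▸ hi)
    · unfold yb ybv
      split_ifs
      · rw [aeval_X, h1]
      · rw [map_one]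

/-- **The Pfister form with the additional slot `y` is anisotropic.** -/
theorem an_res {j0 : Fin n} (hj0 : D.side j0 = false) (hj1 : D.sg j0 = {i0}) {e : Ω}
    (he : e ^ 2 = -1) (hi : AlgebraicIndependent Ω (uu t x R)) (h : spc D i0 t 1 x y = 0)
    (hodd : Odd (finrank (IntermediateField.adjoin Ω (Set.range (uu t x R))) κ))
    (u v : Finset (Fin s) → κ) (huv : pf t u + y * pf t v = 0) : u = 0 ∧ v = 0 := by
  classical
  have hfin : Fintype (Sg s n μ) := Fintype.ofFinite _
  have hA := Av_ne (R := R) D i0 hj0 hj1 hi h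
  have hr := rel D i0 h
  have hti : t i0 = -Bv D i0 t x y / Av D i0 t x y := by
    rw [eq_div_iff hA]
    linear_combination hr
  set V := vv i0 t x R y with hV
  set FV := IntermediateField.adjoin Ω (Set.range V) with hFV
  set FU := IntermediateField.adjoin Ω (Set.range (uu t x R)) with hFU
  have hVm : ∀ w, V w ∈ FV := fun w => IntermediateField.subset_adjoin _ _ ⟨w, rfl⟩
  have hpm : ∀ P : MvPolynomial (Sg s n μ) Ω, aeval V P ∈ FV := by
    intro P
    rw [aeval_def, eval₂_eq]
    exact sum_mem fun α _ => mul_mem (FV.algebraMap_mem _) (prod_mem fun i _ => pow_mem (hVm i) _)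
  have hti' : t i0 ∈ FV := by
    rw [hti, ← aeval_AP (Ω := Ω) (R := R) D i0, ← aeval_BP (Ω := Ω) (R := R) D i0]
    exact div_mem (neg_mem (hpm _)) (hpm _)
  have hle : FU ≤ FV := by
    rw [hFU, IntermediateField.adjoin_le_iff]
    rintro _ ⟨w, rfl⟩
    rcases w with i | w
    · by_cases hii : i = i0
      · show t i ∈ FV
        rw [hii]
        exact hti'
      · have h1 : t i = V (Sum.inl i) := (if_neg hii).symm
        show t i ∈ FV
        rw [h1]
        exact hVm _
    · exact hVm (Sum.inr w)
  have hfd : FiniteDimensional FU κ := FiniteDimensional.of_finrank_pos hodd.pos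
  have hVi : AlgebraicIndependent Ω V := by
    refine Pool.Agent.X328.FD.indep_count (y := uu t x R) (fun z => ?_) hi le_rfl
    exact Pool.Agent.X328.FD.alg_mono hle (Algebra.IsAlgebraic.isAlgebraic z)
  have hoddV : Odd (finrank FV κ) := by
    have h1 := IntermediateField.relfinrank_mul_finrank_top hle
    rw [← h1] at hodd
    exact (Nat.odd_mul.1 hodd).2
  set ψ : MvPolynomial (Sg s n μ) Ω →ₐ[Ω] κ := aeval V with hψ
  have hadj : IntermediateField.adjoin Ω (Set.range ψ) = FV := by
    apply le_antisymm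
    · rw [IntermediateField.adjoin_le_iff]
      rintro _ ⟨P, rfl⟩
      exact hpm P
    · rw [hFV, IntermediateField.adjoin_le_iff]
      rintro _ ⟨i, rfl⟩
      have h1 : V i = ψ (X i) := (aeval_X _ _).symm
      rw [h1]
      exact IntermediateField.subset_adjoin _ _ ⟨X i, rfl⟩
  set a := Av D i0 t x y with ha
  have hψa : ∀ i, ψ (aP D i0 i) = t i * (if i = i0 then a ^ 2 else 1) := by
    intro i
    unfold aP
    by_cases hii : i = i0
    · rw [if_pos hii, if_pos hii, map_neg, map_mul, hψ, aeval_AP, aeval_BP, hii]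
      linear_combination (-a) * hr
    · rw [if_neg hii, if_neg hii, hψ, aeval_X, mul_one]
      exact if_neg hii
  have hψp : ∀ S : Finset (Fin s), ψ (∏ i ∈ S, aP D i0 i) =
      (∏ i ∈ S, t i) * (if i0 ∈ S then a ^ 2 else 1) := by
    intro S
    rw [map_prod, Finset.prod_congr rfl fun i _ => hψa i, Finset.prod_mul_distrib]
    congr 1
    rw [Finset.prod_ite_eq']
  let cP : Bool × Finset (Fin s) → MvPolynomial (Sg s n μ) Ω := fun p =>
    (if p.1 = true then X (Sum.inl i0) else 1) * ∏ i ∈ p.2, aP D i0 i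
  let z : Bool × Finset (Fin s) → κ := fun p =>
    (if p.1 = true then v p.2 else u p.2) / (if i0 ∈ p.2 then a else 1)
  have hterm : ∀ p, ψ (cP p) * z p ^ 2 = (if p.1 = true then y else 1) *
      ((∏ i ∈ p.2, t i) * (if p.1 = true then v p.2 else u p.2) ^ 2) := by
    rintro ⟨b, S⟩
    have h1 : ψ (cP (b, S)) = (if b = true then y else 1) *
        ((∏ i ∈ S, t i) * (if i0 ∈ S then a ^ 2 else 1)) := by
      show ψ ((if b = true then X (Sum.inl i0) else 1) * ∏ i ∈ S, aP D i0 i) = _
      rw [map_mul, hψp]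
      congr 1
      split_ifs
      · rw [hψ, aeval_X]
        exact if_pos rfl
      · rw [map_one]
    rw [h1]
    show _ * ((if b = true then v S else u S) / (if i0 ∈ S then a else 1)) ^ 2 =
      (if b = true then y else 1) * ((∏ i ∈ S, t i) * (if b = true then v S else u S) ^ 2)
    by_cases hS : i0 ∈ S
    · rw [if_pos hS, if_pos hS]
      field_simp
    · rw [if_neg hS, if_neg hS]
      ring
  by_contra hcon
  have hz : z ≠ 0 := by
    intro hz
    apply hcon
    constructor
    · funext S
      have h1 := congrFun hz (false, S)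
      have h2 : (u S) / (if i0 ∈ S then a else 1) = 0 := h1
      rcases div_eq_zero_iff.1 h2 with h3 | h3
      · exact h3
      · split_ifs at h3
        · exact absurd h3 hA
        · exact absurd h3 one_ne_zero
    · funext S
      have h1 := congrFun hz (true, S)
      have h2 : (v S) / (if i0 ∈ S then a else 1) = 0 := h1
      rcases div_eq_zero_iff.1 h2 with h3 | h3
      · exact h3
      · split_ifs at h3
        · exact absurd h3 hA
        · exact absurd h3 one_ne_zero
  obtain ⟨r, ⟨p0, hp0⟩, hr2⟩ := odd_diag ψ (by rw [hadj]; exact hoddV) cP z hz (by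
    rw [Finset.sum_congr rfl fun p _ => hterm p, Fintype.sum_prod_type, Fintype.sum_bool]
    simp only [if_true, Bool.false_eq_true, if_false, one_mul]
    rw [← Finset.mul_sum]
    unfold pf at huv
    linear_combination huv)
  have h4 := (algebraicIndependent_iff.1 hVi) _ hr2
  have h5 := pp_all (μ := μ) D i0 hj0 hj1 he ∅ r (fun p hp => ?_) ?_
  · rw [h5, Pi.zero_apply, map_zero] at hp0
    exact hp0 rfl
  · exfalso
    apply hp
    show p.2 \ Finset.univ = ∅
    rw [Finset.sdiff_eq_empty_iff_subset]
    exact Finset.subset_univ _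
  · simp only [Finset.inter_univ]
    exact h4

end rf

end

end Pool.Agent.H900.PN
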