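import Pool.Agent.H900.PN.Cv
import Pool.Graph.R_seed8.Helper386.D5V.Helper386_FF_Place

/-! # Families of cubic forms -/

set_option autoImplicit false
set_option linter.unusedSectionVars false
set_option linter.unusedVariables false

namespace Pool.Agent.H900.PN

open Polynomial FF

noncomputable section

/-- the value of a family of forms -/
def fv {ι k A : Type} [CommRing k] [CommRing A] [Algebra k A] {r : ℕ} (T : Finset (Finset ι))
    (t : ι → A) (F : Finset ι → MvPolynomial (Fin r) k) (y : Fin r → A) : A :=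
  ∑ τ ∈ T, (∏ i ∈ τ, t i) * MvPolynomial.aeval y (F τ)

/-- the family of the special cubic -/
def Phi {n : ℕ} {ι : Type} (k : Type) [CommRing k] (D : Dat n ι) (i0 : ι) (τ : Finset ι) :
    MvPolynomial (Fin (n + 2)) k :=
  open Classical in
  (∑ j, if D.sg j = τ then (if D.side j = true then MvPolynomial.X (Fin.last (n + 1)) else
      MvPolynomial.X 0) * MvPolynomial.X j.castSucc.succ ^ 2 else 0) +
    (if τ = ∅ then MvPolynomial.X (Fin.last (n + 1)) *
      (MvPolynomial.X 0 ^ 2 + MvPolynomial.X (Fin.last (n + 1)) ^ 2) else 0) +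
    (if τ = {i0} then MvPolynomial.X 0 * MvPolynomial.X (Fin.last (n + 1)) ^ 2 else 0)

theorem fv_spp {n : ℕ} {ι k A : Type} [Fintype ι] [CommRing k] [CommRing A] [Algebra k A]
    (D : Dat n ι) (i0 : ι) {T : Finset (Finset ι)} (hT0 : ∅ ∈ T) (hT1 : {i0} ∈ T)
    (hTD : ∀ j, D.sg j ∈ T) (t : ι → A) (y : Fin (n + 2) → A) :
    fv T t (Phi k D i0) y = spp D i0 t y := by
  classical
  have h1 : ∀ τ, MvPolynomial.aeval y (Phi k D i0 τ) =
      (∑ j, if D.sg j = τ then (if D.side j = true then y (Fin.last (n + 1)) else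
      y 0) * y j.castSucc.succ ^ 2 else 0) +
    (if τ = ∅ then y (Fin.last (n + 1)) * (y 0 ^ 2 + y (Fin.last (n + 1)) ^ 2) else 0) +
    (if τ = {i0} then y 0 * y (Fin.last (n + 1)) ^ 2 else 0) := by
    intro τ
    unfold Phi
    rw [map_add, map_add, map_sum]
    congr 1
    · congr 1
      · refine Finset.sum_congr rfl fun j _ => ?_
        by_cases h : D.sg j = τ
        · rw [if_pos h, if_pos h, map_mul, map_pow, MvPolynomial.aeval_X]
          by_cases h' : D.side j = true
          · rw [if_pos h', if_pos h', MvPolynomial.aeval_X]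
          · rw [if_neg h', if_neg h', MvPolynomial.aeval_X]
        · rw [if_neg h, if_neg h, map_zero]
      · by_cases h : τ = ∅
        · rw [if_pos h, if_pos h]
          simp only [map_mul, map_add, map_pow, MvPolynomial.aeval_X]
        · rw [if_neg h, if_neg h, map_zero]
    · by_cases h : τ = {i0}
      · rw [if_pos h, if_pos h]
        simp only [map_mul, map_pow, MvPolynomial.aeval_X]
      · rw [if_neg h, if_neg h, map_zero]
  have h2 : ∀ j, ∑ τ ∈ T, (∏ i ∈ τ, t i) * (if D.sg j = τ then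
      (if D.side j = true then y (Fin.last (n + 1)) else y 0) * y j.castSucc.succ ^ 2 else 0) =
      (∏ i ∈ D.sg j, t i) *
        ((if D.side j = true then y (Fin.last (n + 1)) else y 0) * y j.castSucc.succ ^ 2) := by
    intro j
    rw [Finset.sum_eq_single (D.sg j)]
    · rw [if_pos rfl]
    · intro τ _ hτ
      rw [if_neg fun h => hτ h.symm, mul_zero]
    · intro h
      exact absurd (hTD j) h
  have h3 : ∑ τ ∈ T, (∏ i ∈ τ, t i) * (if τ = ∅ then y (Fin.last (n + 1)) *
      (y 0 ^ 2 + y (Fin.last (n + 1)) ^ 2) else 0) =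
      y (Fin.last (n + 1)) * (y 0 ^ 2 + y (Fin.last (n + 1)) ^ 2) := by
    rw [Finset.sum_eq_single ∅]
    · rw [if_pos rfl, Finset.prod_empty, one_mul]
    · intro τ _ hτ
      rw [if_neg hτ, mul_zero]
    · intro h
      exact absurd hT0 h
  have h4 : ∑ τ ∈ T, (∏ i ∈ τ, t i) * (if τ = {i0} then
      y 0 * y (Fin.last (n + 1)) ^ 2 else 0) = t i0 * (y 0 * y (Fin.last (n + 1)) ^ 2) := by
    rw [Finset.sum_eq_single {i0}]
    · rw [if_pos rfl, Finset.prod_singleton]
    · intro τ _ hτ
      rw [if_neg hτ, mul_zero]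
    · intro h
      exact absurd hT1 h
  have h5 : ∀ τ, (∏ i ∈ τ, t i) * MvPolynomial.aeval y (Phi k D i0 τ) =
      (∑ j, (∏ i ∈ τ, t i) * (if D.sg j = τ then
      (if D.side j = true then y (Fin.last (n + 1)) else y 0) * y j.castSucc.succ ^ 2 else 0)) +
      (∏ i ∈ τ, t i) * (if τ = ∅ then y (Fin.last (n + 1)) *
      (y 0 ^ 2 + y (Fin.last (n + 1)) ^ 2) else 0) +
      (∏ i ∈ τ, t i) * (if τ = {i0} then y 0 * y (Fin.last (n + 1)) ^ 2 else 0) := by
    intro τ
    rw [h1, mul_add, mul_add, Finset.mul_sum]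
  unfold fv
  rw [Finset.sum_congr rfl fun τ _ => h5 τ, Finset.sum_add_distrib, Finset.sum_add_distrib,
    h3, h4, Finset.sum_comm, Finset.sum_congr rfl fun j _ => h2 j]
  unfold spp spc qf
  have h6 : ∑ j, (∏ i ∈ D.sg j, t i) *
      ((if D.side j = true then y (Fin.last (n + 1)) else y 0) * y j.castSucc.succ ^ 2) =
      y 0 * (∑ j, if D.side j = false then (∏ i ∈ D.sg j, t i) * y j.castSucc.succ ^ 2 else 0) +
      y (Fin.last (n + 1)) *
        (∑ j, if D.side j = true then (∏ i ∈ D.sg j, t i) * y j.castSucc.succ ^ 2 else 0) := by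
    rw [Finset.mul_sum, Finset.mul_sum, ← Finset.sum_add_distrib]
    refine Finset.sum_congr rfl fun j _ => ?_
    by_cases h : D.side j = true
    · rw [if_pos h, if_pos h, if_neg (by rw [h]; decide)]
      ring
    · rw [if_neg h, if_neg h, if_pos (by simpa using h)]
      ring
  rw [h6]
  ring

theorem fv_map {ι k A B : Type} [CommRing k] [CommRing A] [CommRing B] [Algebra k A]
    [Algebra k B] {r : ℕ} (f : A →ₐ[k] B) (T : Finset (Finset ι)) (t : ι → A)
    (F : Finset ι → MvPolynomial (Fin r) k) (y : Fin r → A) :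
    f (fv T t F y) = fv T (fun i => f (t i)) F fun i => f (y i) := by
  unfold fv
  rw [map_sum]
  refine Finset.sum_congr rfl fun τ _ => ?_
  rw [map_mul, map_prod, MvPolynomial.comp_aeval_apply]

theorem hom_smul {σ k A : Type} [CommRing k] [CommRing A] [Algebra k A] {F : MvPolynomial σ k}
    {d : ℕ} (hF : F.IsHomogeneous d) (y : σ → A) (u : A) :
    MvPolynomial.aeval (fun i => u * y i) F = u ^ d * MvPolynomial.aeval y F := by
  rw [MvPolynomial.aeval_def, MvPolynomial.aeval_def, MvPolynomial.eval₂_eq,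
    MvPolynomial.eval₂_eq, Finset.mul_sum]
  refine Finset.sum_congr rfl fun m hm => ?_
  have h1 : ∑ i ∈ m.support, m i = d := by
    have := hF (MvPolynomial.mem_support_iff.1 hm)
    rw [Finsupp.weight_apply] at this
    simpa [Finsupp.sum] using this
  have h2 : ∏ i ∈ m.support, (u * y i) ^ m i = (∏ i ∈ m.support, y i ^ m i) * u ^ d := by
    rw [← h1, ← Finset.prod_pow_eq_pow_sum, ← Finset.prod_mul_distrib]
    exact Finset.prod_congr rfl fun i _ => by rw [mul_pow, mul_comm]
  rw [h2]
  ring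

theorem fv_smul {ι k A : Type} [CommRing k] [CommRing A] [Algebra k A] {r : ℕ}
    {T : Finset (Finset ι)} (t : ι → A) {F : Finset ι → MvPolynomial (Fin r) k}
    (hF : ∀ τ ∈ T, (F τ).IsHomogeneous 3) (c : A) (y : Fin r → A) :
    fv T t F (fun i => c * y i) = c ^ 3 * fv T t F y := by
  unfold fv
  rw [Finset.mul_sum]
  refine Finset.sum_congr rfl fun τ hτ => ?_
  rw [hom_smul (hF τ hτ)]
  ring

theorem Phi_hom {n : ℕ} {ι k : Type} [CommRing k] (D : Dat n ι) (i0 : ι) (τ : Finset ι) :
    (Phi k D i0 τ).IsHomogeneous 3 := by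
  classical
  have hX : ∀ a : Fin (n + 2), (MvPolynomial.X a : MvPolynomial _ k).IsHomogeneous 1 :=
    fun a => MvPolynomial.isHomogeneous_X k a
  unfold Phi
  refine MvPolynomial.IsHomogeneous.add (MvPolynomial.IsHomogeneous.add
    (MvPolynomial.IsHomogeneous.sum _ _ _ fun j _ => ?_) ?_) ?_
  · split_ifs
    · exact (hX _).mul ((hX _).pow 2)
    · exact (hX _).mul ((hX _).pow 2)
    · exact MvPolynomial.isHomogeneous_zero _ _ _
  · split_ifs
    · exact (hX _).mul (((hX _).pow 2).add ((hX _).pow 2))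
    · exact MvPolynomial.isHomogeneous_zero _ _ _
  · split_ifs
    · exact (hX _).mul ((hX _).pow 2)
    · exact MvPolynomial.isHomogeneous_zero _ _ _

theorem Phi_map {n : ℕ} {ι k k' : Type} [CommRing k] [CommRing k'] (f : k →+* k')
    (D : Dat n ι) (i0 : ι) (τ : Finset ι) :
    MvPolynomial.map f (Phi k D i0 τ) = Phi k' D i0 τ := by
  classical
  unfold Phi
  rw [map_add, map_add, map_sum]
  congr 1
  · congr 1
    · refine Finset.sum_congr rfl fun j _ => ?_
      split_ifs
      · rw [map_mul, map_pow, MvPolynomial.map_X, MvPolynomial.map_X]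
      · rw [map_mul, map_pow, MvPolynomial.map_X, MvPolynomial.map_X]
      · rw [map_zero]
    · split_ifs
      · simp only [map_mul, map_add, map_pow, MvPolynomial.map_X]
      · rw [map_zero]
  · split_ifs
    · simp only [map_mul, map_pow, MvPolynomial.map_X]
    · rw [map_zero]

end

end Pool.Agent.H900.PN
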