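import Pool.Agent.H900.PN.Ir

/-! # The data of the special cubic exist -/

set_option autoImplicit false
set_option linter.unusedSectionVars false
set_option linter.unusedVariables false

namespace Pool.Agent.H900.PN

noncomputable section

theorem exists_dat {s n : ℕ} {T : Finset (Finset (Fin s))} {i0 : Fin s} (hT0 : ∅ ∈ T)
    (hT1 : {i0} ∈ T) (hn : 1 ≤ n) (hT : n + 1 ≤ 2 * T.card) :
    ∃ (D : Dat n (Fin s)) (j0 : Fin n), D.side j0 = false ∧ D.sg j0 = {i0} ∧
      ∀ j, D.sg j ∈ T := by
  classical
  obtain ⟨k, rfl⟩ : ∃ k, n = k + 1 := ⟨n - 1, by omega⟩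
  let Z : Finset (Bool × Finset (Fin s)) :=
    (Finset.univ ×ˢ T).erase (true, ∅) |>.erase (false, {i0})
  have hcard : Z.card = 2 * T.card - 1 - 1 := by
    rw [Finset.card_erase_of_mem, Finset.card_erase_of_mem, Finset.card_product]
    · rfl
    · simp [hT0]
    · rw [Finset.mem_erase]
      exact ⟨by simp, by simp [hT1]⟩
  obtain ⟨f⟩ : Nonempty (Fin k ↪ Z) := by
    apply Function.Embedding.nonempty_of_card_le
    rw [Fintype.card_fin, Fintype.card_coe, hcard]
    omega
  have hfZ : ∀ j, (f j).1 ≠ (false, {i0}) ∧ (f j).1 ≠ (true, ∅) ∧ (f j).1.2 ∈ T := by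
    intro j
    have h := (f j).2
    rw [Finset.mem_erase, Finset.mem_erase, Finset.mem_product] at h
    exact ⟨h.1, h.2.1, h.2.2.2⟩
  let e : Fin (k + 1) → Bool × Finset (Fin s) := Fin.cons (false, {i0}) fun j => (f j).1
  have he : Function.Injective e := by
    intro a b
    refine Fin.cases ?_ (fun a => ?_) a <;> refine Fin.cases ?_ (fun b => ?_) b
    · exact fun _ => rfl
    · intro h
      exact absurd h.symm (hfZ b).1
    · intro h
      exact absurd h (hfZ a).1
    · intro h
      have h2 : a = b := f.injective (Subtype.ext h)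
      rw [h2]
  refine ⟨⟨fun j => (e j).1, fun j => (e j).2, fun i j h1 h2 => he (Prod.ext h1 h2),
    fun j => ?_⟩, 0, rfl, rfl, fun j => ?_⟩
  · refine Fin.cases ?_ (fun j => ?_) j
    · intro h
      exact absurd (show (false : Bool) = true from h) (by decide)
    · intro h h'
      exact (hfZ j).2.1 (Prod.ext h h')
  · refine Fin.cases ?_ (fun j => ?_) j
    · exact hT1
    · exact (hfZ j).2.2

end

end Pool.Agent.H900.PN
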