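import Pool.Agent.H900.PN.Cv
import Pool.Agent.H900.LF.An

/-! # The Pfister form of the residue field is anisotropic: polynomials -/

set_option autoImplicit false
set_option linter.unusedSectionVars false
set_option linter.unusedVariables false

namespace Pool.Agent.H900.PN

open MvPolynomial Pool.Agent.H900.LF

noncomputable section

section pp

variable {ι R : Type} [Fintype ι] [DecidableEq ι]

/-- the partial Pfister forms are anisotropic -/
def PP [CommRing R] (Y : R) (a : ι → R) (A : Finset ι) : Prop :=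
  ∀ Z : Finset ι, An (fun p : Bool × Finset ι => (if p.1 = true then Y else 1) *
    ∏ i ∈ p.2 ∩ A, a i) {p | p.2 \ A = Z}

theorem PP.congr [CommRing R] [IsDomain R] {Y : R} {a a' : ι → R} {A : Finset ι} (h : PP Y a A)
    (haa : ∀ i ∈ A, a i = a' i) : PP Y a' A := by
  intro Z
  refine (h Z).congr fun p _ => ?_
  congr 1
  exact Finset.prod_congr rfl fun i hi => haa i (Finset.mem_inter.1 hi).2

theorem An.smul [CommRing R] [IsDomain R] {κ : Type} [Fintype κ] {c : κ → R} {S : Set κ}
    (h : An c S) {g : R} (hg : g ≠ 0) : An (fun i => g * c i) S := by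
  intro r hr hs
  refine h r hr ?_
  have h1 : g * ∑ i, c i * r i ^ 2 = 0 := by
    rw [← hs, Finset.mul_sum]
    exact Finset.sum_congr rfl fun i _ => by ring
  exact (mul_eq_zero.1 h1).resolve_left hg

theorem pstep [CommRing R] [IsDomain R] [WfDvdMonoid R] {R' : Type} [CommRing R'] [IsDomain R']
    (φ : R →+* R') {π g Y : R} {a : ι → R} {A : Finset ι} {i1 : ι}
    (hπ0 : π ≠ 0) (hπ : φ π = 0) (hker : ∀ a, φ a = 0 → π ∣ a) (hi : i1 ∉ A)
    (ha : a i1 = π * g) (hg : φ g ≠ 0) (h : PP (φ Y) (fun i => φ (a i)) A) :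
    PP Y a (insert i1 A) := by
  classical
  intro Z
  refine an_step φ π hπ0 hπ hker _ (fun p : Bool × Finset ι => (if i1 ∈ p.2 then g else 1) *
    ((if p.1 = true then Y else 1) * ∏ i ∈ p.2 ∩ A, a i)) _ {p | i1 ∈ p.2} (fun p => ?_) ?_ ?_
  · by_cases hp : i1 ∈ p.2
    · have hp' : p ∈ {p : Bool × Finset ι | i1 ∈ p.2} := hp
      rw [if_pos hp', if_pos hp, Finset.inter_insert_of_mem hp, Finset.prod_insert (fun h' =>
        hi (Finset.mem_inter.1 h').2), ha]
      ring
    · have hp' : p ∉ {p : Bool × Finset ι | i1 ∈ p.2} := hp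
      rw [if_neg hp', if_neg hp, Finset.inter_insert_of_notMem hp, one_mul]
  · refine ((h Z).mono ?_).congr ?_
    · rintro p ⟨hp1, hp2⟩
      have h1 : p.2 \ insert i1 A = Z := hp1
      have h2 : i1 ∉ p.2 := hp2
      show p.2 \ A = Z
      rw [← h1]
      ext x
      simp only [Finset.mem_sdiff, Finset.mem_insert, not_or]
      constructor
      · rintro ⟨h3, h4⟩
        exact ⟨h3, fun h5 => h2 (h5 ▸ h3), h4⟩
      · rintro ⟨h3, -, h4⟩
        exact ⟨h3, h4⟩
    · rintro p ⟨-, hp2⟩
      have h2 : i1 ∉ p.2 := hp2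
      rw [if_neg h2, one_mul, map_mul, map_prod]
      congr 1
      split_ifs
      · rfl
      · rw [map_one]
  · refine ((An.smul (h (insert i1 Z)) hg).mono ?_).congr ?_
    · rintro p ⟨hp1, hp2⟩
      have h1 : p.2 \ insert i1 A = Z := hp1
      have h2 : i1 ∈ p.2 := hp2
      show p.2 \ A = insert i1 Z
      rw [← h1]
      ext x
      simp only [Finset.mem_sdiff, Finset.mem_insert, not_or]
      constructor
      · rintro ⟨h3, h4⟩
        by_cases h5 : x = i1
        · exact Or.inl h5
        · exact Or.inr ⟨h3, h5, h4⟩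
      · rintro (h3 | ⟨h3, -, h4⟩)
        · rw [h3]
          exact ⟨h2, hi⟩
        · exact ⟨h3, h4⟩
    · rintro p ⟨-, hp2⟩
      have h2 : i1 ∈ p.2 := hp2
      rw [if_pos h2, map_mul, map_mul, map_prod]
      congr 2
      split_ifs
      · rfl
      · rw [map_one]

end pp

section poly

variable {σ ι k : Type} [Field k] [Fintype ι] [DecidableEq ι] [Finite σ]

theorem pp_zeros (T : Finset σ) {Y : MvPolynomial σ k} {a : ι → MvPolynomial σ k} {A : Finset ι}
    (e : MvPolynomial σ k →ₐ[k] MvPolynomial σ k) (he0 : ∀ a ∈ T, e (X a) = 0)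
    (he1 : ∀ a, a ∉ T → e (X a) = X a) (h : PP (e Y) (fun i => e (a i)) A) : PP Y a A := by
  classical
  intro Z
  refine an_zeros T _ _ e he0 he1 ((h Z).congr fun p _ => ?_)
  rw [map_mul, map_prod]
  congr 1
  split_ifs
  · rfl
  · rw [map_one]

theorem pp_base (v : σ) (a : ι → MvPolynomial σ k) : PP (X v) a ∅ := by
  classical
  intro Z
  refine an_step (sub v (0 : MvPolynomial σ k)).toRingHom (X v) (X_ne_zero _) (LF.sub_self _ 0)
    (fun p hp => ?_) _ (fun _ => 1) _ {p | p.1 = true} (fun p => ?_) ?_ ?_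
  · have h1 := sub_ker v 0 p hp
    rwa [sub_zero] at h1
  · rw [Finset.inter_empty, Finset.prod_empty]
    by_cases hp : p.1 = true
    · have hp' : p ∈ {p : Bool × Finset ι | p.1 = true} := hp
      rw [if_pos hp', if_pos hp]
    · have hp' : p ∉ {p : Bool × Finset ι | p.1 = true} := hp
      rw [if_neg hp', if_neg hp, one_mul]
  · refine An.mono (an_single _ (false, Z) ?_) ?_
    · rw [map_one]
      exact one_ne_zero
    · rintro ⟨b, S⟩ ⟨hp1, hp2⟩
      have h1 : S \ ∅ = Z := hp1
      have h2 : ¬ b = true := hp2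
      rw [Finset.sdiff_empty] at h1
      rw [Set.mem_singleton_iff, Prod.mk.injEq]
      exact ⟨by simpa using h2, h1⟩
  · refine An.mono (an_single _ (true, Z) ?_) ?_
    · rw [map_one]
      exact one_ne_zero
    · rintro ⟨b, S⟩ ⟨hp1, hp2⟩
      have h1 : S \ ∅ = Z := hp1
      have h2 : b = true := hp2
      rw [Finset.sdiff_empty] at h1
      rw [Set.mem_singleton_iff, Prod.mk.injEq]
      exact ⟨h2, h1⟩

end poly

section main

variable {n s : ℕ} {μ k : Type} [Finite μ] [Field k] [CharZero k] (D : Dat n (Fin s)) (i0 : Fin s)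

/-- the variables -/
abbrev Sg (s n : ℕ) (μ : Type) : Type := Fin s ⊕ (Fin n ⊕ μ)

/-- the factor of a variable -/
def yb (j : Fin n) : MvPolynomial (Sg s n μ) k :=
  if D.side j = true then X (Sum.inl i0) else 1

/-- the denominator -/
def AP : MvPolynomial (Sg s n μ) k :=
  ∑ j, (if i0 ∈ D.sg j then (∏ i ∈ (D.sg j).erase i0, X (Sum.inl i)) * yb D i0 j *
    X (Sum.inr (Sum.inl j)) ^ 2 else 0) + X (Sum.inl i0) ^ 2

/-- the numerator -/
def BP : MvPolynomial (Sg s n μ) k :=
  ∑ j, (if i0 ∈ D.sg j then 0 else (∏ i ∈ D.sg j, X (Sum.inl i)) * yb D i0 j *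
    X (Sum.inr (Sum.inl j)) ^ 2) + (X (Sum.inl i0) + X (Sum.inl i0) ^ 3)

/-- the slots -/
def aP (i : Fin s) : MvPolynomial (Sg s n μ) k :=
  if i = i0 then -(AP D i0 * BP D i0) else X (Sum.inl i)

theorem pp_all {j0 : Fin n} (hj0 : D.side j0 = false) (hj1 : D.sg j0 = {i0}) {e : k}
    (he : e ^ 2 = -1) :
    PP (X (Sum.inl i0) : MvPolynomial (Sg s n μ) k) (aP D i0) Finset.univ := by
  classical
  set y : MvPolynomial (Sg s n μ) k := X (Sum.inl i0) with hy
  set x : MvPolynomial (Sg s n μ) k := X (Sum.inr (Sum.inl j0)) with hx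
  let ev : MvPolynomial (Sg s n μ) k →ₐ[k] MvPolynomial (Sg s n μ) k :=
    aeval (Sum.elim (fun i => X (Sum.inl i)) (Sum.elim
      (fun j => if j = j0 then X (Sum.inr (Sum.inl j)) else 0) fun l => X (Sum.inr (Sum.inr l))))
  have hev1 : ∀ i, ev (X (Sum.inl i)) = X (Sum.inl i) := fun i => by
    simp only [ev, aeval_X, Sum.elim_inl]
  have hev2 : ∀ j, ev (X (Sum.inr (Sum.inl j))) =
      if j = j0 then X (Sum.inr (Sum.inl j)) else 0 := fun j => by
    simp only [ev, aeval_X, Sum.elim_inr, Sum.elim_inl]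
  have hev3 : ∀ l, ev (X (Sum.inr (Sum.inr l))) = X (Sum.inr (Sum.inr l)) := fun l => by
    simp only [ev, aeval_X, Sum.elim_inr]
  let a0 : Fin s → MvPolynomial (Sg s n μ) k := fun i =>
    if i = i0 then -((x ^ 2 + y ^ 2) * (y + y ^ 3)) else X (Sum.inl i)
  have hAP : ev (AP D i0) = x ^ 2 + y ^ 2 := by
    unfold AP
    rw [map_add, map_sum, map_pow, hev1]
    congr 1
    rw [Finset.sum_eq_single j0]
    · rw [if_pos (by rw [hj1]; exact Finset.mem_singleton_self i0), hj1,
        Finset.erase_singleton, Finset.prod_empty, one_mul, map_mul, map_pow, hev2, if_pos rfl]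
      have : (yb D i0 j0 : MvPolynomial (Sg s n μ) k) = 1 := by
        unfold yb
        rw [if_neg (by rw [hj0]; decide)]
      rw [this, map_one, one_mul]
    · intro j _ hj
      split_ifs
      · rw [map_mul, map_pow, hev2, if_neg hj]
        ring
      · rw [map_zero]
    · intro h
      exact absurd (Finset.mem_univ _) h
  have hBP : ev (BP D i0) = y + y ^ 3 := by
    unfold BP
    rw [map_add, map_sum, map_add, map_pow, hev1, Finset.sum_eq_zero, zero_add]
    intro j _
    by_cases hj : j = j0
    · rw [hj, if_pos (by rw [hj1]; exact Finset.mem_singleton_self i0), map_zero]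
    · split_ifs
      · rw [map_zero]
      · rw [map_mul, map_pow, hev2, if_neg hj]
        ring
  refine pp_zeros (Finset.univ.filter (fun j => j ≠ j0) |>.map
    ⟨fun j => (Sum.inr (Sum.inl j) : Sg s n μ), fun i j h => Sum.inl_injective
      (Sum.inr_injective h)⟩) ev ?_ ?_ ?_
  · intro v hv
    rw [Finset.mem_map] at hv
    obtain ⟨j, hj, rfl⟩ := hv
    rw [Finset.mem_filter] at hj
    show ev (X (Sum.inr (Sum.inl j))) = 0
    rw [hev2, if_neg hj.2]
  · intro v hv
    rcases v with i | j | l
    · exact hev1 i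
    · have hj : j = j0 := by
        by_contra hj
        apply hv
        rw [Finset.mem_map]
        exact ⟨j, by simp [hj], rfl⟩
      rw [hev2, if_pos hj]
    · exact hev3 l
  have hev : ∀ i, ev (aP D i0 i) = a0 i := by
    intro i
    unfold aP
    by_cases hi : i = i0
    · have h2 : a0 i = -((x ^ 2 + y ^ 2) * (y + y ^ 3)) := if_pos hi
      rw [if_pos hi, h2, map_neg, map_mul, hAP, hBP]
    · have h2 : a0 i = X (Sum.inl i) := if_neg hi
      rw [if_neg hi, h2, hev1]
  rw [show ev y = y from hev1 i0, funext hev]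
  -- the first slot
  have h1 : PP y a0 {i0} := by
    have h2 : ({i0} : Finset (Fin s)) = insert i0 ∅ := rfl
    rw [h2]
    refine pstep (sub (Sum.inr (Sum.inl j0)) (C (-e) * y)).toRingHom (π := x - C (-e) * y)
      (g := -((x - C e * y) * (y + y ^ 3))) ?_ ?_ ?_ (Finset.notMem_empty _) ?_ ?_ ?_
    · intro h
      have h3 := congrArg (eval (fun v : Sg s n μ => if v = Sum.inr (Sum.inl j0) then (1 : k)
        else 0)) h
      simp only [hx, hy, map_sub, map_mul, eval_X, eval_C, map_zero, if_true] at h3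
      rw [if_neg (by simp), mul_zero, sub_zero] at h3
      exact one_ne_zero h3
    · show sub _ _ (x - C (-e) * y) = 0
      rw [map_sub, map_mul, hx, LF.sub_self, hy, sub_ne (by simp)]
      have : sub (Sum.inr (Sum.inl j0)) (C (-e) * X (Sum.inl i0)) (C (-e)) =
        (C (-e) : MvPolynomial (Sg s n μ) k) := AlgHom.commutes _ _
      rw [this, _root_.sub_self]
    · intro p hp
      exact sub_ker _ _ _ hp
    · have h2 : a0 i0 = -((x ^ 2 + y ^ 2) * (y + y ^ 3)) := if_pos rfl
      rw [h2]
      have h3 : (C e : MvPolynomial (Sg s n μ) k) ^ 2 = -1 := by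
        rw [← map_pow, he, map_neg, map_one]
      have h4 : (C (-e) : MvPolynomial (Sg s n μ) k) = -C e := map_neg _ _
      rw [h4]
      linear_combination (-(y ^ 2 * (y + y ^ 3))) * h3
    · show sub _ _ (-((x - C e * y) * (y + y ^ 3))) ≠ 0
      have h5 : sub (Sum.inr (Sum.inl j0)) (C (-e) * y) (C e) =
        (C e : MvPolynomial (Sg s n μ) k) := AlgHom.commutes _ _
      have h6 : sub (Sum.inr (Sum.inl j0)) (C (-e) * y) y = y := by
        rw [hy]
        exact sub_ne (by simp) _
      rw [map_neg, map_mul, map_sub, map_add, map_pow, map_mul, h5, h6, hx, LF.sub_self]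
      intro h
      have h3 := congrArg (eval (fun v : Sg s n μ => (1 : k))) h
      simp only [hy, map_sub, map_neg, map_add, map_pow, map_mul, eval_X, eval_C, map_zero,
        mul_one, one_pow] at h3
      have h7 : e = 0 := by linear_combination (1 / 4 : k) * h3
      rw [h7] at he
      norm_num at he
    · have h6 : (sub (Sum.inr (Sum.inl j0)) (C (-e) * y)).toRingHom y = y := by
        rw [hy]
        exact sub_ne (by simp) _
      rw [h6]
      exact pp_base _ _
  have h2 : ∀ W : Finset (Fin s), i0 ∉ W → PP y a0 (insert i0 W) := by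
    intro W
    induction W using Finset.induction_on with
    | empty => exact fun _ => h1
    | insert i1 W hi1 ih =>
      intro hW
      have h01 : i0 ≠ i1 := fun h => hW (h ▸ Finset.mem_insert_self _ _)
      have hW' : i0 ∉ W := fun h => hW (Finset.mem_insert_of_mem h)
      rw [Finset.insert_comm]
      have hfix : (sub (Sum.inl i1) (0 : MvPolynomial (Sg s n μ) k)).toRingHom y = y := by
        rw [hy]
        exact sub_ne (by simpa using h01) _
      have hfix2 : (sub (Sum.inl i1) (0 : MvPolynomial (Sg s n μ) k)).toRingHom x = x := by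
        rw [hx]
        exact sub_ne (by simp) _
      refine pstep (sub (Sum.inl i1) (0 : MvPolynomial (Sg s n μ) k)).toRingHom
        (π := X (Sum.inl i1)) (g := 1) (X_ne_zero _) (LF.sub_self _ 0) (fun p hp => ?_) ?_ ?_ ?_ ?_
      · have h1 := sub_ker (Sum.inl i1) 0 p hp
        rwa [sub_zero] at h1
      · rw [Finset.mem_insert, not_or]
        exact ⟨h01.symm, hi1⟩
      · rw [mul_one]
        exact if_neg h01.symm
      · rw [map_one]
        exact one_ne_zero
      · rw [hfix]
        refine (ih hW').congr fun i hi => ?_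
        have hii : i ≠ i1 := by
          rintro rfl
          rw [Finset.mem_insert] at hi
          rcases hi with h | h
          · exact h01 h.symm
          · exact hi1 h
        by_cases hi' : i = i0
        · have h3 : a0 i = -((x ^ 2 + y ^ 2) * (y + y ^ 3)) := if_pos hi'
          rw [h3, map_neg, map_mul, map_add, map_add, map_pow, map_pow, map_pow, hfix, hfix2]
        · have h3 : a0 i = X (Sum.inl i) := if_neg hi'
          rw [h3]
          exact (sub_ne (by simpa using hii) _).symm
  have h3 := h2 (Finset.univ.erase i0) (Finset.notMem_erase _ _)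
  rwa [Finset.insert_erase (Finset.mem_univ _)] at h3

end main

end

end Pool.Agent.H900.PN
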