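import Pool.Agent.H900.PN.Pf

/-! # The special cubic over a discrete valuation -/

set_option autoImplicit false
set_option linter.unusedSectionVars false

namespace Pool.Agent.H900.PN

noncomputable section

/-- the special cubic -/
def spc {n : ℕ} {ι A : Type} [Fintype ι] [CommRing A] (D : Dat n ι) (i0 : ι) (t : ι → A)
    (y0 : A) (x : Fin n → A) (y1 : A) : A :=
  y0 * qf D false t x + y1 * (qf D true t x + (y0 ^ 2 + t i0 * y0 * y1 + y1 ^ 2))

theorem spc_map {n : ℕ} {ι A B : Type} [Fintype ι] [CommRing A] [CommRing B] (f : A →+* B)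
    (D : Dat n ι) (i0 : ι) (t : ι → A) (y0 : A) (x : Fin n → A) (y1 : A) :
    f (spc D i0 t y0 x y1) =
      spc D i0 (fun i => f (t i)) (f y0) (fun j => f (x j)) (f y1) := by
  unfold spc
  simp only [map_add, map_mul, map_pow, qf_map]

theorem spc_smul {n : ℕ} {ι A : Type} [Fintype ι] [CommRing A]
    (D : Dat n ι) (i0 : ι) (t : ι → A) (c y0 : A) (x : Fin n → A) (y1 : A) :
    spc D i0 t (c * y0) (fun j => c * x j) (c * y1) = c ^ 3 * spc D i0 t y0 x y1 := by
  unfold spc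
  simp only [qf_smul]
  ring

section loc

variable {R k : Type} [CommRing R] [IsDomain R] [WfDvdMonoid R] [Field k] {red : R →+* k} {π : R}

/-- division of a vector by the largest power -/
theorem vdiv (hπ0 : π ≠ 0) (hker : ∀ y, red y = 0 ↔ π ∣ y) {J : Type} (X : J → R)
    (hX : X ≠ 0) : ∃ (a : ℕ) (X' : J → R), (∀ i, X i = π ^ a * X' i) ∧
      (fun i => red (X' i)) ≠ 0 := by
  classical
  have hu : ¬ IsUnit π := by
    intro h
    have h1 := h.map red
    rw [(hker π).2 dvd_rfl] at h1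
    exact not_isUnit_zero h1
  obtain ⟨i0, hi0⟩ := Function.ne_iff.1 hX
  rw [Pi.zero_apply] at hi0
  obtain ⟨N, hN⟩ := FiniteMultiplicity.of_not_isUnit hu hi0
  have hex : ∃ a, ¬ ∀ i, π ^ a ∣ X i := ⟨N + 1, fun h => hN (h i0)⟩
  obtain ⟨a, ha1, ha2⟩ : ∃ a, (∀ i, π ^ a ∣ X i) ∧ ¬ ∀ i, π ^ (a + 1) ∣ X i := by
    obtain ⟨b, hb⟩ : ∃ b, Nat.find hex = b + 1 := by
      refine ⟨Nat.find hex - 1, ?_⟩
      have h0 : Nat.find hex ≠ 0 := by
        intro h
        have h1 := Nat.find_spec hex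
        rw [h] at h1
        exact h1 fun i => by rw [pow_zero]; exact one_dvd _
      omega
    refine ⟨b, ?_, ?_⟩
    · have h1 := Nat.find_min hex (m := b) (by omega)
      rwa [not_not] at h1
    · rw [← hb]
      exact Nat.find_spec hex
  choose X' hX' using ha1
  refine ⟨a, X', hX', fun h => ha2 fun i => ?_⟩
  have h1 : red (X' i) = 0 := congrFun h i
  rw [hX' i, pow_succ]
  exact mul_dvd_mul_left _ ((hker _).1 h1)

theorem exp_uniq (hπ0 : π ≠ 0) (hker : ∀ y, red y = 0 ↔ π ∣ y) {a b : ℕ} {x y : R}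
    (h : π ^ a * x = π ^ b * y) (hx : red x ≠ 0) (hy : red y ≠ 0) : a = b ∧ x = y := by
  have key : ∀ {a b : ℕ} {x y : R}, π ^ a * x = π ^ b * y → red x ≠ 0 → ¬ a < b := by
    intro a b x y h hx hab
    obtain ⟨d, rfl⟩ := Nat.exists_eq_add_of_lt hab
    have h1 : π ^ a * x = π ^ a * (π * (π ^ d * y)) := by
      rw [h]
      ring
    have h2 := mul_left_cancel₀ (pow_ne_zero a hπ0) h1
    exact hx ((hker x).2 ⟨_, h2⟩)
  have h1 := key h hx
  have h2 := key h.symm hy
  have h3 : a = b := by omega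
  subst h3
  exact ⟨rfl, mul_left_cancel₀ (pow_ne_zero a hπ0) h⟩

/-- the order of a divisor -/
theorem exp_le (hπ0 : π ≠ 0) (hker : ∀ y, red y = 0 ↔ π ∣ y) {a b : ℕ} {x y : R}
    (h : π ^ a * x = π ^ b * y) (hx : red x ≠ 0) : b ≤ a := by
  by_contra hab
  obtain ⟨d, rfl⟩ := Nat.exists_eq_add_of_lt (not_le.1 hab)
  have h1 : π ^ a * x = π ^ a * (π * (π ^ d * y)) := by
    rw [h]
    ring
  have h2 := mul_left_cancel₀ (pow_ne_zero a hπ0) h1
  exact hx ((hker x).2 ⟨_, h2⟩)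

variable {n : ℕ} {ι : Type} [Fintype ι] (D : Dat n ι) {t : ι → R}

theorem bracket (hπ0 : π ≠ 0) (hker : ∀ y, red y = 0 ↔ π ∣ y)
    (hA : Ani fun i => red (t i)) {U W u0 w0 : R} {a b : ℕ} (hU : U = π ^ a * u0)
    (hu0 : red u0 ≠ 0) (hW : W = π ^ b * w0) (hab : a < b) (X : Fin n → R) (τ : R) :
    ∃ (c : ℕ) (B : R), qf D true t X + (U ^ 2 + τ * U * W + W ^ 2) = π ^ (2 * c) * B ∧
      red B ≠ 0 ∧ Vl (fun i => red (t i)) (red B) := by
  classical
  have hU0 : U ≠ 0 := by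
    rw [hU]
    refine mul_ne_zero (pow_ne_zero _ hπ0) ?_
    rintro rfl
    exact hu0 (map_zero _)
  obtain ⟨c, Z, hZ, hZ0⟩ := vdiv hπ0 hker
    (fun o : Option (Fin n) => o.elim U fun j => if D.side j = true then X j else 0) (by
      intro h
      exact hU0 (congrFun h none))
  have e1 : U = π ^ c * Z none := hZ none
  have hca : c ≤ a := exp_le hπ0 hker (hU.symm.trans e1) hu0
  obtain ⟨d, rfl⟩ := Nat.exists_eq_add_of_lt (lt_of_le_of_lt hca hab)
  have e2 : W = π ^ c * (π * (π ^ d * w0)) := by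
    rw [hW]
    ring
  have e3 : qf D true t X = π ^ (2 * c) * qf D true t fun j => Z (some j) := by
    rw [show π ^ (2 * c) = (π ^ c) ^ 2 by ring, ← qf_smul]
    refine qf_congr D true t fun j hj => ?_
    have := hZ (some j)
    simp only [Option.elim_some, if_pos hj] at this
    exact this
  set s : R := π ^ d * w0 with hs
  refine ⟨c, (qf D true t fun j => Z (some j)) + (Z none) ^ 2 + π * (τ * Z none * s + π * s ^ 2),
    ?_, ?_⟩
  · rw [e3, e2]
    nth_rewrite 1 [e1]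
    nth_rewrite 1 [e1]
    ring
  have hπr : red π = 0 := (hker π).2 dvd_rfl
  have e4 : red ((qf D true t fun j => Z (some j)) + (Z none) ^ 2 +
      π * (τ * Z none * s + π * s ^ 2)) = (qf D true (fun i => red (t i))
        fun j => red (Z (some j))) + red (Z none) ^ 2 := by
    rw [map_add, map_add, map_mul, hπr, zero_mul, add_zero, qf_map, map_pow]
  rw [e4]
  obtain ⟨u, hu1, hu2⟩ := sub1 D (fun i => red (t i)) (fun j => red (Z (some j))) (red (Z none))
  rw [hu1]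
  refine ⟨fun h => ?_, u, rfl⟩
  obtain ⟨h1, h2⟩ := hu2 (hA u h)
  apply hZ0
  funext o
  rcases o with _ | j
  · exact h1
  · by_cases hj : D.side j = true
    · exact h2 j hj
    · have h3 := hZ (some j)
      simp only [Option.elim_some, if_neg hj] at h3
      have h4 := (mul_eq_zero.1 h3.symm).resolve_left (pow_ne_zero _ hπ0)
      show red (Z (some j)) = 0
      rw [h4, map_zero]

/-- the value of a side -/
theorem qval (hπ0 : π ≠ 0) (hker : ∀ y, red y = 0 ↔ π ∣ y)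
    (hA : Ani fun i => red (t i)) (b : Bool) (X : Fin n → R) (h : qf D b t X ≠ 0) :
    ∃ (d : ℕ) (Q : R), qf D b t X = π ^ (2 * d) * Q ∧ red Q ≠ 0 ∧
      Vl (fun i => red (t i)) (red Q) := by
  classical
  obtain ⟨d, Z, hZ, hZ0⟩ := vdiv hπ0 hker (fun j => if D.side j = b then X j else 0) (by
      intro h0
      apply h
      have h1 : qf D b t X = qf D b t 0 := qf_congr D b t fun j hj => by
        have := congrFun h0 j
        simp only [if_pos hj] at this
        exact this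
      rw [h1]
      refine Finset.sum_eq_zero fun j _ => ?_
      rw [Pi.zero_apply]
      split_ifs <;> ring)
  have e3 : qf D b t X = π ^ (2 * d) * qf D b t Z := by
    rw [show π ^ (2 * d) = (π ^ d) ^ 2 by ring, ← qf_smul]
    refine qf_congr D b t fun j hj => ?_
    have := hZ j
    simp only [if_pos hj] at this
    exact this
  refine ⟨d, qf D b t Z, e3, ?_⟩
  rw [qf_map]
  obtain ⟨u, hu1, hu2⟩ := sub0 D b (fun i => red (t i)) (fun j => red (Z j))
  rw [hu1]
  refine ⟨fun h => ?_, u, rfl⟩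
  have h2 := hu2 (hA u h)
  apply hZ0
  funext j
  by_cases hj : D.side j = b
  · exact h2 j hj
  · have h3 := hZ j
    simp only [if_neg hj] at h3
    have h4 := (mul_eq_zero.1 h3.symm).resolve_left (pow_ne_zero _ hπ0)
    show red (Z j) = 0
    rw [h4, map_zero]

theorem ll_core (hπ0 : π ≠ 0) (hker : ∀ y, red y = 0 ↔ π ∣ y)
    (hA : Ani fun i => red (t i)) {e : k} (he : e ^ 2 = -1) {Y0 Y1 y0 y1 B B' : R} {a b c : ℕ}
    (h0 : Y0 = π ^ a * y0) (hy0 : red y0 ≠ 0) (h1 : Y1 = π ^ b * y1) (hy1 : red y1 ≠ 0)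
    (X : Fin n → R) (hΦ : Y0 * qf D false t X + Y1 * B = 0) (hB : B = π ^ (2 * c) * B')
    (hB0 : red B' ≠ 0) (hBv : Vl (fun i => red (t i)) (red B')) :
    Even (a + b) ∧ Vl (fun i => red (t i)) (red y0 * red y1) := by
  have hne : ∀ z : R, red z ≠ 0 → z ≠ 0 := by
    rintro z hz rfl
    exact hz (map_zero _)
  have hq : qf D false t X ≠ 0 := by
    intro h
    rw [h, mul_zero, zero_add, h1, hB] at hΦ
    exact (mul_ne_zero (mul_ne_zero (pow_ne_zero _ hπ0) (hne _ hy1))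
      (mul_ne_zero (pow_ne_zero _ hπ0) (hne _ hB0))) hΦ
  obtain ⟨d, Q, hQ, hQ0, hQv⟩ := qval D hπ0 hker hA false X hq
  have e1 : π ^ (a + 2 * d) * (y0 * Q) = π ^ (b + 2 * c) * (-(y1 * B')) := by
    have h2 : π ^ (a + 2 * d) * (y0 * Q) = Y0 * qf D false t X := by
      rw [hQ, h0]
      ring
    have h3 : π ^ (b + 2 * c) * (-(y1 * B')) = -(Y1 * B) := by
      rw [hB, h1]
      ring
    rw [h2, h3]
    linear_combination hΦ
  obtain ⟨e2, e3⟩ := exp_uniq hπ0 hker e1 (by rw [map_mul]; exact mul_ne_zero hy0 hQ0) (by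
    rw [map_neg, map_mul]
    exact neg_ne_zero.2 (mul_ne_zero hy1 hB0))
  refine ⟨⟨b + c - d, by omega⟩, ?_⟩
  have e4 : red y0 * red Q = -(red y1 * red B') := by
    have := congrArg red e3
    rwa [map_mul, map_neg, map_mul] at this
  refine vl_of_mul hQv hQ0 ?_
  have e5 : red y0 * red y1 * red Q = -(red y1 ^ 2 * red B') := by
    linear_combination (red y1) * e4
  rw [e5]
  exact vl_neg he (vl_sq hBv _)

/-- **Parity.** -/
theorem ll (hπ0 : π ≠ 0) (hker : ∀ y, red y = 0 ↔ π ∣ y)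
    (hA : Ani fun i => red (t i)) {e : k} (he : e ^ 2 = -1) {i0 : ι} {Y0 Y1 y0 y1 : R} {a b : ℕ}
    (h0 : Y0 = π ^ a * y0) (hy0 : red y0 ≠ 0) (h1 : Y1 = π ^ b * y1) (hy1 : red y1 ≠ 0)
    (X : Fin n → R) (hΦ : spc D i0 t Y0 X Y1 = 0) (hab : a ≠ b) :
    Even (a + b) ∧ Vl (fun i => red (t i)) (red y0 * red y1) := by
  rcases lt_or_gt_of_ne hab with h | h
  · obtain ⟨c, B, hB, hB0, hBv⟩ := bracket D hπ0 hker hA h0 hy0 h1 h X (t i0)
    exact ll_core D hπ0 hker hA he h0 hy0 h1 hy1 X hΦ hB hB0 hBv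
  · obtain ⟨c, B, hB, hB0, hBv⟩ := bracket D hπ0 hker hA h1 hy1 h0 h X (t i0)
    refine ll_core D hπ0 hker hA he h0 hy0 h1 hy1 X hΦ (Eq.trans ?_ hB) hB0 hBv
    ring

/-- the end of a curve at a point with `y0 = y1 = 0` -/
theorem ll2 (hπ0 : π ≠ 0) (hker : ∀ y, red y = 0 ↔ π ∣ y)
    (hA : Ani fun i => red (t i)) {e : k} (he : e ^ 2 = -1) {i0 : ι} {Y0 Y1 y0 y1 : R} {a m : ℕ}
    (h0 : Y0 = π ^ a * y0) (hy0 : red y0 ≠ 0) (h1 : Y1 = π ^ a * y1) (hy1 : red y1 ≠ 0)
    {X X' : Fin n → R} (hX : ∀ j, X j = π ^ m * X' j) (hX0 : (fun j => red (X' j)) ≠ 0)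
    (hΦ : spc D i0 t Y0 X Y1 = 0) (hma : m < a) :
    Vl (fun i => red (t i)) (red y0 * red y1) := by
  have hπr : red π = 0 := (hker π).2 dvd_rfl
  obtain ⟨d, rfl⟩ := Nat.exists_eq_add_of_lt hma
  have hX2 : X = fun j => π ^ m * X' j := funext hX
  have e1 : π ^ (m + d + 1 + 2 * m) * (y0 * qf D false t X' + y1 * (qf D true t X' +
      π * (π * π ^ (2 * d) * (y0 ^ 2 + t i0 * y0 * y1 + y1 ^ 2)))) = 0 := by
    rw [← hΦ, spc, h0, h1, hX2, qf_smul, qf_smul]
    ring
  have e2 := (mul_eq_zero.1 e1).resolve_left (pow_ne_zero _ hπ0)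
  have e3 := congrArg red e2
  rw [map_add, map_mul, map_mul, map_add, map_mul, hπr, zero_mul, add_zero, map_zero, qf_map,
    qf_map] at e3
  obtain ⟨u, hu1, hu2⟩ := sub0 D false (fun i => red (t i)) (fun j => red (X' j))
  obtain ⟨v, hv1, hv2⟩ := sub0 D true (fun i => red (t i)) (fun j => red (X' j))
  rw [hu1, hv1] at e3
  have huv : pf (fun i => red (t i)) u ≠ 0 := by
    intro h
    rw [h, mul_zero, zero_add] at e3
    have h3 := (mul_eq_zero.1 e3).resolve_left hy1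
    have h4 := hu2 (hA u h)
    have h5 := hv2 (hA v h3)
    apply hX0
    funext j
    by_cases hj : D.side j = true
    · exact h5 j hj
    · exact h4 j (by simpa using hj)
  refine vl_of_mul (w := pf (fun i => red (t i)) u) ⟨u, rfl⟩ huv ?_
  have e5 : red y0 * red y1 * pf (fun i => red (t i)) u =
      -(red y1 ^ 2 * pf (fun i => red (t i)) v) := by
    linear_combination (red y1) * e3
  rw [e5]
  exact vl_neg he (vl_sq ⟨v, rfl⟩ _)

end loc

end

end Pool.Agent.H900.PN
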