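import Pool.Agent.H900.PN.Tc
import Pool.Agent.H900.LF.Pr

/-! # The main theorem for independent coefficients -/

set_option autoImplicit false
set_option linter.unusedSectionVars false
set_option linter.unusedVariables false

namespace Pool.Agent.H900.PN

open MvPolynomial FF Module Pool.Agent.Helper93K9.PAR Pool.Agent.H900.LF

noncomputable section

/-- all coordinates of a generic point are nonzero -/
theorem gp0 {k M : Type} [Field k] [Field M] [Algebra k M] {n m : ℕ}
    {f : MvPolynomial (Fin (n + 2)) k} (hf : f.IsHomogeneous 3)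
    (hco : ∀ l, coeff (Finsupp.single l 3) f ≠ 0) {g : Fin (n + 2) → M} {R : Fin m → M}
    (hg0 : g ≠ 0) (hg : aeval g f = 0)
    (halg : ∀ z : M, IsAlgebraic (IntermediateField.adjoin k
      ({z | ∃ i j, z = g i / g j} ∪ Set.range R)) z)
    {ι' : Type} {y : ι' → M} (hy : AlgebraicIndependent k y)
    (hc : ((n + m : ℕ) : Cardinal) ≤ Cardinal.mk ι') (a : Fin (n + 2)) : g a ≠ 0 := by
  classical
  intro ha
  obtain ⟨i1, hi1⟩ := Function.ne_iff.1 hg0
  rw [Pi.zero_apply] at hi1
  have hai : a ≠ i1 := by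
    rintro rfl
    exact hi1 ha
  let I := {i : Fin (n + 2) // i ≠ i1 ∧ i ≠ a}
  let b : I ⊕ Fin m → M := Sum.elim (fun i => g i.1 / g i1) R
  have hcard : Fintype.card I = n := by
    rw [Fintype.card_subtype]
    have h1 : (Finset.univ.filter fun i : Fin (n + 2) => i ≠ i1 ∧ i ≠ a) =
        (Finset.univ.erase i1).erase a := by
      ext i
      simp only [Finset.mem_filter, Finset.mem_univ, true_and, Finset.mem_erase, ne_eq,
        and_true]
      tauto
    rw [h1, Finset.card_erase_of_mem (Finset.mem_erase.2 ⟨hai, Finset.mem_univ _⟩),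
      Finset.card_erase_of_mem (Finset.mem_univ _), Finset.card_univ, Fintype.card_fin]
    omega
  have hbi : AlgebraicIndependent k b := by
    refine Pool.Agent.X328.FD.indep_count (y := y) (alg_of_gens _
      ({z | ∃ i j, z = g i / g j} ∪ Set.range R) ?_ halg) hy ?_
    · have hb : ∀ s, b s ∈ IntermediateField.adjoin k (Set.range b) :=
        fun s => IntermediateField.subset_adjoin _ _ ⟨s, rfl⟩
      have hgi : ∀ i, g i / g i1 ∈ IntermediateField.adjoin k (Set.range b) := by
        intro i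
        by_cases h1 : i = i1
        · rw [h1, div_self hi1]
          exact one_mem _
        by_cases h2 : i = a
        · rw [h2, ha, zero_div]
          exact zero_mem _
        · exact hb (Sum.inl ⟨i, h1, h2⟩)
      intro z hz
      apply alg_mem
      rcases hz with ⟨i, j, rfl⟩ | ⟨l, rfl⟩
      · rw [← div_div_div_cancel_right₀ hi1]
        exact div_mem (hgi i) (hgi j)
      · exact hb (Sum.inr l)
    · refine le_trans (le_of_eq ?_) hc
      rw [Cardinal.mk_sum, Cardinal.mk_fintype I, hcard]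
      simp only [Cardinal.lift_id, Cardinal.mk_fin]
      push_cast
      ring
  let pos : Fin (n + 2) → MvPolynomial (I ⊕ Fin m) k := fun i =>
    if h1 : i = i1 then 1 else if h2 : i = a then 0 else X (Sum.inl ⟨i, h1, h2⟩)
  have hpos : ∀ i, aeval b (pos i) = (g i1)⁻¹ * g i := by
    intro i
    by_cases h1 : i = i1
    · have h2 : pos i = 1 := dif_pos h1
      rw [h2, map_one, h1, inv_mul_cancel₀ hi1]
    by_cases h2 : i = a
    · have h3 : pos i = 0 := (dif_neg h1).trans (dif_pos h2)
      rw [h3, map_zero, h2, ha, mul_zero]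
    · have h3 : pos i = X (Sum.inl ⟨i, h1, h2⟩) := (dif_neg h1).trans (dif_neg h2)
      rw [h3, aeval_X, inv_mul_eq_div]
      rfl
  have hP0 : aeval b (aeval pos f) = 0 := by
    rw [comp_aeval_apply, funext hpos, PN.hom_smul hf, hg, mul_zero]
  have hP1 : aeval pos f = 0 := (algebraicIndependent_iff.1 hbi) _ hP0
  have hP2 : aeval (0 : I ⊕ Fin m → k) (aeval pos f) = 0 := by rw [hP1, map_zero]
  rw [comp_aeval_apply] at hP2
  have hpos0 : ∀ i, aeval (0 : I ⊕ Fin m → k) (pos i) = if i = i1 then 1 else 0 := by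
    intro i
    by_cases h1 : i = i1
    · have h2 : pos i = 1 := dif_pos h1
      rw [h2, map_one, if_pos h1]
    by_cases h2 : i = a
    · have h3 : pos i = 0 := (dif_neg h1).trans (dif_pos h2)
      rw [h3, map_zero, if_neg h1]
    · have h3 : pos i = X (Sum.inl ⟨i, h1, h2⟩) := (dif_neg h1).trans (dif_neg h2)
      rw [h3, aeval_X, if_neg h1, Pi.zero_apply]
  rw [TrL.aeval_single hf i1 _ (by rw [hpos0, if_pos rfl])
    fun i hi => by rw [hpos0, if_neg hi]] at hP2
  exact hco i1 hP2

section fam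

variable {s n : ℕ}

/-- the generic member of the family -/
def fam (T : Finset (Finset (Fin s))) (F : Finset (Fin s) → MvPolynomial (Fin (n + 2)) ℂ) :
    MvPolynomial (Fin (n + 2)) (Kt s) :=
  ∑ τ ∈ T, C (∏ i ∈ τ, Pool.Agent.X328.FD.tf s i) * map (algebraMap ℂ (Kt s)) (F τ)

theorem aeval_fam (T : Finset (Finset (Fin s)))
    (F : Finset (Fin s) → MvPolynomial (Fin (n + 2)) ℂ) {A : Type} [CommRing A]
    [Algebra (Kt s) A] [Algebra ℂ A] [IsScalarTower ℂ (Kt s) A] (y : Fin (n + 2) → A) :
    aeval y (fam T F) =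
      fv T (fun i => algebraMap (Kt s) A (Pool.Agent.X328.FD.tf s i)) F y := by
  unfold fam fv
  rw [map_sum]
  refine Finset.sum_congr rfl fun τ _ => ?_
  rw [map_mul, aeval_C, map_prod, aeval_map_algebraMap]

theorem fam_hom {T : Finset (Finset (Fin s))}
    {F : Finset (Fin s) → MvPolynomial (Fin (n + 2)) ℂ} (hF : ∀ τ ∈ T, (F τ).IsHomogeneous 3) :
    (fam T F).IsHomogeneous 3 := by
  unfold fam
  refine IsHomogeneous.sum _ _ _ fun τ hτ => ?_
  have h := (isHomogeneous_C (Fin (n + 2)) (∏ i ∈ τ, Pool.Agent.X328.FD.tf s i)).mul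
    ((hF τ hτ).map (algebraMap ℂ (Kt s)))
  rwa [zero_add] at h

theorem fam_coeff {T : Finset (Finset (Fin s))} (hT0 : ∅ ∈ T)
    {F : Finset (Fin s) → MvPolynomial (Fin (n + 2)) ℂ} (β : Fin (n + 2) →₀ ℕ)
    (h : coeff β (F ∅) ≠ 0) : coeff β (fam T F) ≠ 0 := by
  classical
  let p : MvPolynomial (Fin s) ℂ := ∑ τ ∈ T, (∏ i ∈ τ, X i) * C (coeff β (F τ))
  have h1 : coeff β (fam T F) = algebraMap (MvPolynomial (Fin s) ℂ) (Kt s) p := by
    unfold fam
    rw [coeff_sum, map_sum]
    refine Finset.sum_congr rfl fun τ _ => ?_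
    rw [coeff_C_mul, coeff_map, map_mul, map_prod]
    rfl
  rw [h1, Ne, IsFractionRing.to_map_eq_zero_iff]
  intro hp
  have h2 : eval (0 : Fin s → ℂ) p = 0 := by rw [hp, map_zero]
  have h3 : eval (0 : Fin s → ℂ) p = coeff β (F ∅) := by
    simp only [p, map_sum, map_mul, map_prod, eval_X, eval_C, Pi.zero_apply]
    rw [Finset.sum_eq_single ∅]
    · rw [Finset.prod_empty, one_mul]
    · intro τ _ hτ
      obtain ⟨i, hi⟩ := Finset.nonempty_iff_ne_empty.2 hτ
      rw [Finset.prod_eq_zero hi rfl, zero_mul]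
    · intro h
      exact absurd hT0 h
  exact h (h3.symm.trans h2)

end fam

section main

variable {s n m : ℕ} (D : Dat n (Fin s)) {i0 : Fin s} {j0 : Fin n}
    (hj0 : D.side j0 = false) (hj1 : D.sg j0 = {i0}) {T : Finset (Finset (Fin s))}
    (hT0 : ∅ ∈ T) (hT1 : {i0} ∈ T) (hTD : ∀ j, D.sg j ∈ T)
    {F : Finset (Fin s) → MvPolynomial (Fin (n + 2)) ℂ} (hF : ∀ τ ∈ T, (F τ).IsHomogeneous 3)
    (hind : AlgebraicIndependent ℚ
      (fun p : T × {β : Fin (n + 2) →₀ ℕ // β.degree = 3} => coeff p.2.1 (F p.1)))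

include hj0 hj1 hT0 hT1 hTD hF hind

theorem main_odd {M : Type} [Field M] [Algebra (Kt s) M] (g : Fin (n + 2) → M) (R : Fin m → M)
    (hg : aeval g (fam T F) = 0) (hg0 : g 0 ≠ 0)
    (hi : AlgebraicIndependent (Kt s)
      (Sum.elim (fun j : Fin n => g j.castSucc.succ / g 0) R))
    (hodd : Odd (finrank (IntermediateField.adjoin (Kt s)
      (Set.range (Sum.elim (fun j : Fin n => g j.castSucc.succ / g 0) R))) M))
    (l : Fin (n + 2) → M) (hl : ∀ i, IsAlgebraic (Kt s) (l i)) :
    ¬ Relation.ReflTransGen (Joined (fam T F)) g l := by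
  classical
  intro hch
  let _ : Algebra ℂ M := ((algebraMap (Kt s) M).comp (algebraMap ℂ (Kt s))).toAlgebra
  have _ : IsScalarTower ℂ (Kt s) M := IsScalarTower.of_algebraMap_eq fun _ => rfl
  set t : Fin s → M := fun i => algebraMap (Kt s) M (Pool.Agent.X328.FD.tf s i) with ht
  set S : Set M := Set.range (Sum.elim (fun j : Fin n => g j.castSucc.succ / g 0) R) with hS
  have htop : (IsScalarTower.toAlgHom ℂ (Kt s) M).fieldRange =
      IntermediateField.adjoin ℂ (Set.range t) := by
    have h1 : IntermediateField.adjoin ℂ (Set.range (Pool.Agent.X328.FD.tf s)) = ⊤ :=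
      Pool.Agent.X328.FD.tf_top
    rw [AlgHom.fieldRange_eq_map, ← h1, IntermediateField.adjoin_map, ← Set.range_comp]
    rfl
  have hranU : Set.range (UU t g R) = Set.range t ∪ S := by
    unfold UU
    rw [(eqv s n m).surjective.range_comp]
    exact Set.Sum.elim_range _ _
  have hres : (IntermediateField.adjoin (Kt s) S).restrictScalars ℂ = Kc ℂ (UU t g R) := by
    rw [Pool.Agent.X328.FD.res_type, htop, sup_comm, ← IntermediateField.adjoin_union,
      Set.union_comm, ← hranU]
  have hodd' : Odd (finrank (Kc ℂ (UU t g R)) M) := by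
    rw [← hres]
    exact hodd
  have hiU : AlgebraicIndependent ℂ (UU t g R) := by
    unfold UU
    rw [algebraicIndependent_equiv]
    have h1 := AlgebraicIndependent.sumElim_comp (Pool.Agent.X328.FD.tf_indep (m := s)) hi
    have h2 : uu t (fun j => g j.castSucc.succ / g 0) R =
        (Sum.elim (Sum.elim (fun j : Fin n => g j.castSucc.succ / g 0) R)
          (algebraMap (Kt s) M ∘ Pool.Agent.X328.FD.tf s)) ∘ Equiv.sumComm _ _ := by
      funext v
      rcases v with v | v
      · rfl
      · rfl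
    rw [h2, algebraicIndependent_equiv]
    exact h1
  have halg' : ∀ z : M, IsAlgebraic (Kt s) z → IsAlgebraic
      (IntermediateField.adjoin ℂ (Set.range t)) z := by
    intro z hz
    rw [← htop]
    let f : Kt s →+* (IsScalarTower.toAlgHom ℂ (Kt s) M).fieldRange :=
      (algebraMap (Kt s) M).codRestrict (IsScalarTower.toAlgHom ℂ (Kt s) M).fieldRange
        fun a => ⟨a, rfl⟩
    obtain ⟨P, hP, hPz⟩ := hz
    refine ⟨P.map f, ?_, ?_⟩
    · rwa [Ne, Polynomial.map_eq_zero]
    · rw [Polynomial.aeval_def, Polynomial.eval₂_map]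
      exact hPz
  refine over_C D hj0 hj1 hT0 hT1 hTD hF hind t g R ?_ hg0 hiU hodd' l
    (fun i j => dep_of_alg (halg' _ ?_)) ?_
  · rw [← hg, aeval_fam]
  · rw [div_eq_mul_inv]
    exact (hl i).mul (hl j).inv
  · refine Relation.ReflTransGen.mono (fun a b' h => ?_) _ _ hch
    obtain ⟨ha, hb', d, Cc, hd, hC, e1, e2⟩ := h
    refine ⟨ha, hb', d, Cc, hd, ?_, e1, e2⟩
    have _ : IsScalarTower ℂ (Kt s) (Polynomial M) := IsScalarTower.of_algebraMap_eq fun _ => rfl
    rw [← hC, aeval_fam]
    rfl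

end main

end

end Pool.Agent.H900.PN
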