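import Pool.Agent.H900.PN.Fv

/-! # Initial forms -/

set_option autoImplicit false
set_option linter.unusedSectionVars false
set_option linter.unusedVariables false

namespace Pool.Agent.H900.PN

open Polynomial FF

noncomputable section

section ini

variable {Ω E : Type} [Field Ω] [Field E] [Algebra Ω E] (w : Place Ω E) {ϖ : E}
  (h0 : ϖ ≠ 0) (h1 : w.ord ϖ = 1)

include h0 h1

theorem reg_lv {x : E} {n : ℤ} (h : x = 0 ∨ n ≤ w.ord x) : w.Reg (x * ϖ ^ (-n)) := by
  by_cases hx : x = 0
  · rw [hx, zero_mul]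
    exact w.reg_zero
  · right
    rw [w.ord_mul hx (zpow_ne_zero _ h0), w.ord_zpow, h1]
    have := h.resolve_left hx
    omega

theorem red_lv {x : E} {n : ℤ} (h : x = 0 ∨ n < w.ord x) : w.red (x * ϖ ^ (-n)) = 0 := by
  rw [w.red_eq_zero_iff (reg_lv w h0 h1 (h.imp id le_of_lt))]
  by_cases hx : x = 0
  · left
    rw [hx, zero_mul]
  · right
    rw [w.ord_mul hx (zpow_ne_zero _ h0), w.ord_zpow, h1]
    have := h.resolve_left hx
    omega

end ini

section lv

variable {Ω E : Type} [Field Ω] [Field E] [Algebra Ω E] (w : Place Ω E)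

/-- the orders of the coefficients are on or above a line -/
def Lv (q e : ℤ) (f : E[X]) : Prop := ∀ l : ℕ, f.coeff l = 0 ∨ q * l ≤ e * w.ord (f.coeff l)

/-- the initial form -/
def ini (ϖ : E) (q e : ℤ) (f : E[X]) : w.RF[X] :=
  ∑ l ∈ Finset.range (f.natDegree + 1),
    monomial l (if e ∣ q * l then w.red (f.coeff l * ϖ ^ (-(q * l / e))) else 0)

theorem coeff_ini (ϖ : E) (q e : ℤ) (f : E[X]) (l : ℕ) : (ini w ϖ q e f).coeff l =
    if e ∣ q * l then w.red (f.coeff l * ϖ ^ (-(q * l / e))) else 0 := by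
  unfold ini
  rw [finsetSum_coeff]
  simp only [coeff_monomial]
  by_cases hl : l < f.natDegree + 1
  · rw [Finset.sum_eq_single l]
    · rw [if_pos rfl]
    · intro i _ hi
      rw [if_neg hi]
    · intro h
      exact absurd (Finset.mem_range.2 hl) h
  · rw [Finset.sum_eq_zero]
    · have h1 : f.coeff l = 0 := coeff_eq_zero_of_natDegree_lt (by omega)
      rw [h1, zero_mul, w.red_zero, ite_self]
    · intro i hi
      rw [if_neg]
      rintro rfl
      exact hl (Finset.mem_range.1 hi)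

/-- `g` is the initial form of `f` -/
def Rd (ϖ : E) (q e : ℤ) (f : E[X]) (g : w.RF[X]) : Prop := Lv w q e f ∧ ini w ϖ q e f = g

theorem lvk {q e : ℤ} (he : 0 < e) {x y : E} {l : ℤ} (hx : x = 0 ∨ q * l ≤ e * w.ord x)
    (hy : y = 0 ∨ q * l ≤ e * w.ord y) : x + y = 0 ∨ q * l ≤ e * w.ord (x + y) := by
  by_cases h1 : x = 0
  · rwa [h1, zero_add]
  by_cases h2 : y = 0
  · rwa [h2, add_zero]
  by_cases h3 : x + y = 0
  · exact Or.inl h3
  right
  have h4 := w.ord_add h1 h2 h3
  have h5 := hx.resolve_left h1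
  have h6 := hy.resolve_left h2
  rcases min_le_iff.1 h4 with h | h
  · nlinarith
  · nlinarith

variable {ϖ : E} (h0 : ϖ ≠ 0) (h1 : w.ord ϖ = 1) {q e : ℤ} (he : 0 < e)

include h0 h1 he

theorem lv_reg {x : E} {l : ℤ} (h : x = 0 ∨ q * l ≤ e * w.ord x) (hd : e ∣ q * l) :
    w.Reg (x * ϖ ^ (-(q * l / e))) := by
  apply reg_lv w h0 h1
  refine h.imp id fun h => ?_
  obtain ⟨d, hd⟩ := hd
  rw [hd, Int.mul_ediv_cancel_left _ he.ne']
  rw [hd] at h
  exact le_of_mul_le_mul_left h he

theorem lv_red {x : E} {l : ℤ} (h : x = 0 ∨ q * l < e * w.ord x) (hd : e ∣ q * l) :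
    w.red (x * ϖ ^ (-(q * l / e))) = 0 := by
  apply red_lv w h0 h1
  refine h.imp id fun h => ?_
  obtain ⟨d, hd⟩ := hd
  rw [hd, Int.mul_ediv_cancel_left _ he.ne']
  rw [hd] at h
  exact lt_of_mul_lt_mul_left h he.le

theorem rd_add {f g : E[X]} {f' g' : w.RF[X]} (hf : Rd w ϖ q e f f') (hg : Rd w ϖ q e g g') :
    Rd w ϖ q e (f + g) (f' + g') := by
  obtain ⟨hf1, rfl⟩ := hf
  obtain ⟨hg1, rfl⟩ := hg
  refine ⟨fun l => ?_, ?_⟩
  · rw [coeff_add]
    exact lvk w he (hf1 l) (hg1 l)
  · ext l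
    rw [coeff_add, coeff_ini, coeff_ini, coeff_ini]
    by_cases hd : e ∣ q * l
    · rw [if_pos hd, if_pos hd, if_pos hd, coeff_add, add_mul]
      exact w.red_add (lv_reg w h0 h1 he (hf1 l) hd) (lv_reg w h0 h1 he (hg1 l) hd)
    · rw [if_neg hd, if_neg hd, if_neg hd, add_zero]

theorem rd_zero : Rd w ϖ q e 0 0 := by
  refine ⟨fun l => Or.inl (coeff_zero l), ?_⟩
  ext l
  rw [coeff_ini, coeff_zero, zero_mul, w.red_zero, ite_self, coeff_zero]

theorem rd_C {a : E} (ha : w.Reg a) : Rd w ϖ q e (C a) (C (w.red a)) := by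
  refine ⟨fun l => ?_, ?_⟩
  · rcases Nat.eq_zero_or_pos l with rfl | hl
    · rw [coeff_C_zero]
      refine ha.imp id fun h => ?_
      rw [Nat.cast_zero, mul_zero]
      exact mul_nonneg he.le h
    · left
      rw [coeff_C, if_neg hl.ne']
  · ext l
    rw [coeff_ini]
    rcases Nat.eq_zero_or_pos l with rfl | hl
    · rw [coeff_C_zero, coeff_C_zero, Nat.cast_zero, mul_zero, if_pos (dvd_zero _)]
      simp
    · rw [coeff_C, coeff_C, if_neg hl.ne', if_neg hl.ne', zero_mul, w.red_zero, ite_self]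

theorem rd_mul {f g : E[X]} {f' g' : w.RF[X]} (hf : Rd w ϖ q e f f') (hg : Rd w ϖ q e g g') :
    Rd w ϖ q e (f * g) (f' * g') := by
  obtain ⟨hf1, rfl⟩ := hf
  obtain ⟨hg1, rfl⟩ := hg
  have hterm : ∀ a b : ℕ, f.coeff a * g.coeff b = 0 ∨
      q * ((a + b : ℕ) : ℤ) ≤ e * w.ord (f.coeff a * g.coeff b) := by
    intro a b
    by_cases h2 : f.coeff a = 0
    · left
      rw [h2, zero_mul]
    by_cases h3 : g.coeff b = 0
    · left
      rw [h3, mul_zero]
    right
    rw [w.ord_mul h2 h3]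
    have h4 := (hf1 a).resolve_left h2
    have h5 := (hg1 b).resolve_left h3
    push_cast
    rw [mul_add, mul_add]
    exact add_le_add h4 h5
  refine ⟨fun l => ?_, ?_⟩
  · rw [coeff_mul]
    refine Finset.sum_induction (fun x : ℕ × ℕ => f.coeff x.1 * g.coeff x.2)
      (fun x => x = 0 ∨ q * (l : ℤ) ≤ e * w.ord x) (fun x y hx hy => lvk w he hx hy)
      (Or.inl rfl) fun x hx => ?_
    have h2 := hterm x.1 x.2
    rwa [Finset.HasAntidiagonal.mem_antidiagonal.1 hx] at h2
  · ext l
    rw [coeff_ini, coeff_mul, coeff_mul]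
    by_cases hd : e ∣ q * l
    · rw [if_pos hd, Finset.sum_mul]
      have hsum : ∀ s : Finset (ℕ × ℕ), (∀ x ∈ s, x.1 + x.2 = l) →
          w.Reg (∑ x ∈ s, f.coeff x.1 * g.coeff x.2 * ϖ ^ (-(q * l / e))) ∧
          w.red (∑ x ∈ s, f.coeff x.1 * g.coeff x.2 * ϖ ^ (-(q * l / e))) =
            ∑ x ∈ s, w.red (f.coeff x.1 * g.coeff x.2 * ϖ ^ (-(q * l / e))) := by
        classical
        intro s
        induction s using Finset.induction_on with
        | empty =>
          intro _
          rw [Finset.sum_empty, Finset.sum_empty]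
          exact ⟨w.reg_zero, w.red_zero⟩
        | insert a s ha ih =>
          intro hs
          rw [Finset.sum_insert ha, Finset.sum_insert ha]
          obtain ⟨i1, i2⟩ := ih fun x hx => hs x (Finset.mem_insert_of_mem hx)
          have i3 : w.Reg (f.coeff a.1 * g.coeff a.2 * ϖ ^ (-(q * l / e))) := by
            apply lv_reg w h0 h1 he _ hd
            have h2 := hterm a.1 a.2
            rwa [hs a (Finset.mem_insert_self a s)] at h2
          exact ⟨w.reg_add i3 i1, by rw [w.red_add i3 i1, i2]⟩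
      rw [(hsum _ fun x hx => Finset.HasAntidiagonal.mem_antidiagonal.1 hx).2]
      refine Finset.sum_congr rfl fun x hx => ?_
      have hl : x.1 + x.2 = l := Finset.HasAntidiagonal.mem_antidiagonal.1 hx
      have hl' : q * (l : ℤ) = q * x.1 + q * x.2 := by
        rw [← hl]
        push_cast
        ring
      rw [coeff_ini, coeff_ini]
      by_cases hd1 : e ∣ q * x.1
      · have hd2 : e ∣ q * x.2 := by
          rw [hl'] at hd
          exact (Int.dvd_add_right hd1).1 hd
        rw [if_pos hd1, if_pos hd2, ← w.red_mul (lv_reg w h0 h1 he (hf1 _) hd1)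
          (lv_reg w h0 h1 he (hg1 _) hd2)]
        congr 1
        have h2 : -(q * (l : ℤ) / e) = -(q * x.1 / e) + -(q * x.2 / e) := by
          rw [hl', Int.add_ediv_of_dvd_left hd1]
          ring
        rw [h2, zpow_add₀ h0]
        ring
      · rw [if_neg hd1, zero_mul]
        apply lv_red w h0 h1 he _ hd
        by_cases h2 : f.coeff x.1 = 0
        · left
          rw [h2, zero_mul]
        by_cases h3 : g.coeff x.2 = 0
        · left
          rw [h3, mul_zero]
        right
        have h4 := (hf1 x.1).resolve_left h2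
        have h5 := (hg1 x.2).resolve_left h3
        have h6 : q * (x.1 : ℤ) ≠ e * w.ord (f.coeff x.1) := fun h => hd1 ⟨_, h⟩
        rw [w.ord_mul h2 h3, hl', mul_add]
        omega
    · rw [if_neg hd]
      symm
      refine Finset.sum_eq_zero fun x hx => ?_
      have hl : x.1 + x.2 = l := Finset.HasAntidiagonal.mem_antidiagonal.1 hx
      have hl' : q * (l : ℤ) = q * x.1 + q * x.2 := by
        rw [← hl]
        push_cast
        ring
      rw [coeff_ini, coeff_ini]
      by_cases hd1 : e ∣ q * x.1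
      · by_cases hd2 : e ∣ q * x.2
        · exact absurd (hl' ▸ dvd_add hd1 hd2) hd
        · rw [if_neg hd2, mul_zero]
      · rw [if_neg hd1, zero_mul]

theorem rd_sum {J : Type} (s : Finset J) {f : J → E[X]} {g : J → w.RF[X]}
    (h : ∀ j ∈ s, Rd w ϖ q e (f j) (g j)) : Rd w ϖ q e (∑ j ∈ s, f j) (∑ j ∈ s, g j) := by
  classical
  induction s using Finset.induction_on with
  | empty => exact rd_zero w h0 h1 he
  | insert a s ha ih =>
    rw [Finset.sum_insert ha, Finset.sum_insert ha]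
    exact rd_add w h0 h1 he (h a (Finset.mem_insert_self a s))
      (ih fun j hj => h j (Finset.mem_insert_of_mem hj))

theorem rd_prod {J : Type} (s : Finset J) {f : J → E[X]} {g : J → w.RF[X]}
    (h : ∀ j ∈ s, Rd w ϖ q e (f j) (g j)) : Rd w ϖ q e (∏ j ∈ s, f j) (∏ j ∈ s, g j) := by
  classical
  induction s using Finset.induction_on with
  | empty =>
    rw [Finset.prod_empty, Finset.prod_empty]
    have h2 := rd_C w h0 h1 (q := q) he w.reg_one
    rwa [w.red_one, C_1, C_1] at h2
  | insert a s ha ih =>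
    rw [Finset.prod_insert ha, Finset.prod_insert ha]
    exact rd_mul w h0 h1 he (h a (Finset.mem_insert_self a s))
      (ih fun j hj => h j (Finset.mem_insert_of_mem hj))

theorem rd_aeval {r : ℕ} (F : MvPolynomial (Fin r) Ω) {y : Fin r → E[X]} {z : Fin r → w.RF[X]}
    (h : ∀ i, Rd w ϖ q e (y i) (z i)) :
    Rd w ϖ q e (MvPolynomial.aeval y F) (MvPolynomial.aeval z F) := by
  induction F using MvPolynomial.induction_on with
  | C a =>
    rw [MvPolynomial.aeval_C, MvPolynomial.aeval_C]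
    exact rd_C w h0 h1 he (w.reg_const a)
  | add f g hf hg =>
    rw [map_add, map_add]
    exact rd_add w h0 h1 he hf hg
  | mul_X f i hf =>
    rw [map_mul, map_mul, MvPolynomial.aeval_X, MvPolynomial.aeval_X]
    exact rd_mul w h0 h1 he hf (h i)

theorem rd_fv {ι : Type} (T : Finset (Finset ι)) {t : ι → E} (ht : ∀ i, w.Reg (t i)) {r : ℕ}
    (F : Finset ι → MvPolynomial (Fin r) Ω) {y : Fin r → E[X]} {z : Fin r → w.RF[X]}
    (h : ∀ i, Rd w ϖ q e (y i) (z i)) :
    Rd w ϖ q e (fv T (fun i => C (t i)) F y) (fv T (fun i => C (w.red (t i))) F z) := by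
  unfold fv
  refine rd_sum w h0 h1 he _ fun τ _ => rd_mul w h0 h1 he ?_ (rd_aeval w h0 h1 he _ h)
  exact rd_prod w h0 h1 he _ fun i _ => rd_C w h0 h1 he (ht i)

end lv

end

end Pool.Agent.H900.PN
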