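import Pool.Agent.H900.PN.Lc

/-! # Polynomials and Pfister forms -/

set_option autoImplicit false
set_option linter.unusedSectionVars false
set_option linter.unusedVariables false

namespace Pool.Agent.H900.PN

open Polynomial

noncomputable section

section np

variable {κ ι : Type} [Field κ] [Fintype ι] {t : ι → κ}

/-- the constants -/
abbrev ct (t : ι → κ) : ι → κ[X] := fun i => C (t i)

/-- the Pfister form is isotropic modulo `π` -/
def Iso (t : ι → κ) (π : κ[X]) : Prop :=
  ∃ u : Finset ι → κ[X], π ∣ pf (ct t) u ∧ ∃ S, ¬ π ∣ u S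

theorem lead_pf (hA : Ani t) {u : Finset ι → κ[X]} (hu : u ≠ 0) :
    ∃ N, (∀ S, (u S).natDegree ≤ N) ∧ (∃ S, (u S).natDegree = N) ∧
      (pf (ct t) u).natDegree = 2 * N ∧
      pf (ct t) u ≠ 0 ∧ Vl t (pf (ct t) u).leadingCoeff := by
  classical
  obtain ⟨S0, -, hS0⟩ := Finset.exists_max_image (Finset.univ : Finset (Finset ι))
    (fun S => (u S).natDegree) Finset.univ_nonempty
  set N := (u S0).natDegree with hN
  have hle : ∀ S, (u S).natDegree ≤ N := fun S => hS0 S (Finset.mem_univ _)
  have hcoef : (pf (ct t) u).coeff (2 * N) = pf t fun S => (u S).coeff N := by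
    unfold pf
    rw [finsetSum_coeff]
    refine Finset.sum_congr rfl fun S _ => ?_
    rw [← map_prod, coeff_C_mul, coeff_pow_of_natDegree_le (hle S)]
  have hne : (fun S => (u S).coeff N) ≠ 0 := by
    intro h
    by_cases h0 : u S0 = 0
    · have hN0 : N = 0 := by rw [hN, h0, natDegree_zero]
      apply hu
      funext S
      have h1 : (u S).natDegree = 0 := by
        have := hle S
        omega
      rw [eq_C_of_natDegree_eq_zero h1]
      have h2 := congrFun h S
      rw [hN0] at h2
      rw [h2]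
      exact C_0
    · have h2 := congrFun h S0
      exact h0 (leadingCoeff_eq_zero.1 h2)
  have hne2 : (pf (ct t) u).coeff (2 * N) ≠ 0 := by
    rw [hcoef]
    exact fun h => hne (hA _ h)
  have hdeg : (pf (ct t) u).natDegree ≤ 2 * N := by
    unfold pf
    refine natDegree_sum_le_of_forall_le _ _ fun S _ => ?_
    rw [← map_prod]
    refine (natDegree_C_mul_le _ _).trans (natDegree_pow_le.trans ?_)
    exact Nat.mul_le_mul_left _ (hle S)
  have hdeg2 : (pf (ct t) u).natDegree = 2 * N :=
    le_antisymm hdeg (le_natDegree_of_ne_zero hne2)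
  refine ⟨N, hle, ⟨S0, rfl⟩, hdeg2, ?_, fun S => (u S).coeff N, ?_⟩
  · intro h
    rw [h, coeff_zero] at hne2
    exact hne2 rfl
  · rw [leadingCoeff, hdeg2, hcoef]

theorem ker_X (y : κ[X]) : constantCoeff y = 0 ↔ X ∣ y := by
  rw [X_dvd_iff, constantCoeff_apply]

/-- the trailing coefficient -/
theorem tc_of {f g : κ[X]} {a : ℕ} (h : f = X ^ a * g) (hg : constantCoeff g ≠ 0) :
    f.trailingCoeff = constantCoeff g := by
  have h1 : ∀ a : ℕ, (X ^ a : κ[X]).trailingCoeff = 1 := by
    intro a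
    induction a with
    | zero => rw [pow_zero, trailingCoeff_eq_coeff_zero (by simp)]; simp
    | succ a ih =>
      have h4 : (X : κ[X]).natTrailingDegree = 1 := natTrailingDegree_X
      rw [pow_succ, trailingCoeff_mul, ih, trailingCoeff, h4, coeff_X_one, mul_one]
  rw [h, trailingCoeff_mul, h1, one_mul, trailingCoeff_eq_coeff_zero hg]
  rfl

theorem trail_pf (hA : Ani t) {u : Finset ι → κ[X]} (hu : u ≠ 0) :
    Vl t (pf (ct t) u).trailingCoeff := by
  obtain ⟨a, u', h1, h2⟩ := vdiv X_ne_zero ker_X u hu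
  have h3 : pf (ct t) u = X ^ (2 * a) * pf (ct t) u' := by
    rw [funext h1, pf_smul]
    ring
  have h4 : constantCoeff (pf (ct t) u') = pf t fun S => constantCoeff (u' S) := by
    rw [pf_map]
    congr 1
    funext i
    simp
  rw [tc_of h3 (by
    rw [h4]
    exact fun h => h2 (hA _ h)), h4]
  exact ⟨_, rfl⟩

/-- all multiplicities at anisotropic primes are even -/
def Ev (t : ι → κ) (Y : κ[X]) : Prop :=
  ∀ (π : κ[X]) (a : ℕ) (y : κ[X]), Irreducible π → ¬ Iso t π → Y = π ^ a * y → ¬ π ∣ y → Even a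

/-- a vector which is primitive -/
theorem prim {π : κ[X]} (hπ : Irreducible π) (h : Iso t π) :
    ∃ u : Finset ι → κ[X], u ≠ 0 ∧ π ∣ pf (ct t) u ∧ (∀ S, (u S).natDegree < π.natDegree) ∧
      ∀ ρ : κ[X], Irreducible ρ → ¬ ∀ S, ρ ∣ u S := by
  classical
  have hπd : 0 < π.natDegree := hπ.natDegree_pos
  let P : ℕ → Prop := fun N => ∃ u : Finset ι → κ[X], u ≠ 0 ∧ π ∣ pf (ct t) u ∧
    (∀ S, (u S).natDegree < π.natDegree) ∧ ∀ S, (u S).natDegree ≤ N
  have hex : ∃ N, P N := by
    obtain ⟨u, hu, S0, hS0⟩ := h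
    refine ⟨π.natDegree, fun S => u S % π, ?_, ?_, fun S => ?_, fun S => ?_⟩
    · intro h0
      exact hS0 (EuclideanDomain.mod_eq_zero.1 (congrFun h0 S0))
    · have h1 : π ∣ pf (ct t) u - pf (ct t) fun S => u S % π := by
        unfold pf
        rw [← Finset.sum_sub_distrib]
        refine Finset.dvd_sum fun S _ => ?_
        have h2 : π ∣ u S - u S % π := by
          have := EuclideanDomain.div_add_mod (u S) π
          exact ⟨u S / π, by linear_combination -this⟩
        obtain ⟨d, hd⟩ := h2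
        exact ⟨(∏ i ∈ S, ct t i) * (d * (u S + u S % π)), by
          linear_combination (∏ i ∈ S, ct t i) * (u S + u S % π) * hd⟩
      have h3 := dvd_sub hu h1
      rwa [sub_sub_cancel] at h3
    · exact natDegree_mod_lt _ hπd.ne'
    · exact (natDegree_mod_lt _ hπd.ne').le
  obtain ⟨u, hu0, hu1, hu2, hu3⟩ := Nat.find_spec hex
  refine ⟨u, hu0, hu1, hu2, fun ρ hρ hdiv => ?_⟩
  choose v hv using hdiv
  have hρd : 0 < ρ.natDegree := hρ.natDegree_pos
  have hv0 : v ≠ 0 := by
    intro h0
    apply hu0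
    funext S
    rw [hv S, h0, Pi.zero_apply, mul_zero]
  have hdeg : ∀ S, v S ≠ 0 → (u S).natDegree = ρ.natDegree + (v S).natDegree := by
    intro S hS
    rw [hv S, natDegree_mul hρ.ne_zero hS]
  obtain ⟨S0, hS0⟩ := Function.ne_iff.1 hv0
  have hN : 0 < Nat.find hex := by
    have h1 := hdeg S0 hS0
    have h2 := hu3 S0
    omega
  have hP : P (Nat.find hex - 1) := by
    refine ⟨v, hv0, ?_, fun S => ?_, fun S => ?_⟩
    · have h1 : pf (ct t) u = ρ ^ 2 * pf (ct t) v := by rw [funext hv, pf_smul]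
      rw [h1] at hu1
      refine (hπ.prime.dvd_or_dvd hu1).resolve_left fun h2 => ?_
      have h3 := hπ.prime.dvd_of_dvd_pow h2
      have h4 := natDegree_le_of_dvd h3 hρ.ne_zero
      have h5 := hdeg S0 hS0
      have h6 := hu2 S0
      omega
    · by_cases hS : v S = 0
      · rw [hS, natDegree_zero]
        exact hπd
      · have h1 := hdeg S hS
        have h2 := hu2 S
        omega
    · by_cases hS : v S = 0
      · rw [hS, natDegree_zero]
        omega
      · have h1 := hdeg S hS
        have h2 := hu3 S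
        omega
  exact Nat.find_min hex (by omega) hP

/-- **The norm principle.** -/
theorem norm_principle (hA : Ani t) : ∀ (d : ℕ) (Y : κ[X]), Y ≠ 0 → Y.natDegree ≤ d → Ev t Y →
    Vl t (Y.leadingCoeff * Y.trailingCoeff) := by
  classical
  intro d
  induction d using Nat.strong_induction_on with
  | _ d ih =>
  intro Y hY hd hev
  by_cases hun : IsUnit Y
  · obtain ⟨c, hc, rfl⟩ := Polynomial.isUnit_iff.1 hun
    have hc0 : c ≠ 0 := hc.ne_zero
    rw [leadingCoeff_C, trailingCoeff_eq_coeff_zero (by rwa [coeff_C_zero]), coeff_C_zero]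
    have := vl_square (a := t) c
    rwa [sq] at this
  obtain ⟨π, hπ, hπY⟩ := WfDvdMonoid.exists_irreducible_factor hun hY
  have hπd : 0 < π.natDegree := hπ.natDegree_pos
  obtain ⟨a, y, hy, hya⟩ : ∃ (a : ℕ) (y : κ[X]), Y = π ^ a * y ∧ ¬ π ∣ y :=
    ⟨_, (FiniteMultiplicity.of_prime_left hπ.prime hY).exists_eq_pow_mul_and_not_dvd⟩
  have ha : 0 < a := by
    rcases Nat.eq_zero_or_pos a with rfl | ha
    · rw [pow_zero, one_mul] at hy
      rw [hy] at hπY
      exact absurd hπY hya
    · exact ha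
  have hy0 : y ≠ 0 := by
    rintro rfl
    exact hya (dvd_zero _)
  have hdegY : Y.natDegree = a * π.natDegree + y.natDegree := by
    rw [hy, natDegree_mul (pow_ne_zero _ hπ.ne_zero) hy0, natDegree_pow]
  have hpos : π.natDegree ≤ a * π.natDegree := Nat.le_mul_of_pos_left _ ha
  have hevy : Ev t y := by
    intro ρ b z hρ hρi hz hρz
    by_cases hb : b = 0
    · rw [hb]
      exact Even.zero
    have hρy : ρ ∣ y := by
      rw [hz]
      exact dvd_mul_of_dvd_left (dvd_pow_self ρ hb) _
    have hρπ : ¬ ρ ∣ π := by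
      intro h
      exact hya (((hρ.associated_of_dvd hπ h).dvd_iff_dvd_left).1 hρy)
    refine hev ρ b (π ^ a * z) hρ hρi (by rw [hy, hz]; ring) fun h => ?_
    rcases hρ.prime.dvd_or_dvd h with h | h
    · exact hρπ (hρ.prime.dvd_of_dvd_pow h)
    · exact hρz h
  have hvy : Vl t (y.leadingCoeff * y.trailingCoeff) :=
    ih y.natDegree (by omega) y hy0 le_rfl hevy
  have hY2 : Y.leadingCoeff * Y.trailingCoeff = (π.leadingCoeff * π.trailingCoeff) ^ a *
      (y.leadingCoeff * y.trailingCoeff) := by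
    have htp : ∀ a : ℕ, (π ^ a).trailingCoeff = π.trailingCoeff ^ a := by
      intro a
      induction a with
      | zero => rw [pow_zero, pow_zero, trailingCoeff_eq_coeff_zero (by simp)]; simp
      | succ a ih2 => rw [pow_succ, trailingCoeff_mul, ih2, pow_succ]
    rw [hy, leadingCoeff_mul, leadingCoeff_pow, trailingCoeff_mul, htp]
    ring
  rw [hY2]
  refine vl_mul ?_ hvy
  rcases Nat.even_or_odd a with hae | hao
  · obtain ⟨b, rfl⟩ := hae
    rw [← two_mul, mul_comm 2 b, pow_mul]
    exact vl_square _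
  -- `π` is isotropic
  have hiso : Iso t π := by
    by_contra h
    have h1 := hev π a y hπ h hy hya
    exact (Nat.not_even_iff_odd.2 hao) h1
  suffices hcl : Vl t (π.leadingCoeff * π.trailingCoeff) by
    obtain ⟨b, rfl⟩ := hao
    rw [pow_succ, mul_comm 2 b, pow_mul]
    exact vl_mul (vl_square _) hcl
  obtain ⟨u, hu0, hu1, hu2, hu3⟩ := prim hπ hiso
  obtain ⟨N, hN1, ⟨S0, hN2⟩, hN3, hne, hvl⟩ := lead_pf hA hu0
  have hvt := trail_pf hA hu0
  obtain ⟨h, hh⟩ := hu1
  have hh0 : h ≠ 0 := by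
    rintro rfl
    rw [mul_zero] at hh
    exact hne hh
  have hdh : (pf (ct t) u).natDegree = π.natDegree + h.natDegree := by
    rw [hh, natDegree_mul hπ.ne_zero hh0]
  have hNπ : N < π.natDegree := by
    rw [← hN2]
    exact hu2 S0
  have hevh : Ev t h := by
    intro ρ b z hρ hρi hz hρz
    by_cases hb : b = 0
    · rw [hb]
      exact Even.zero
    exfalso
    have hρp : ρ ∣ pf (ct t) u := by
      rw [hh, hz]
      exact dvd_mul_of_dvd_right (dvd_mul_of_dvd_left (dvd_pow_self ρ hb) _) _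
    apply hρi
    have h1 := hu3 ρ hρ
    push Not at h1
    exact ⟨u, hρp, h1⟩
  have hvh : Vl t (h.leadingCoeff * h.trailingCoeff) :=
    ih h.natDegree (by omega) h hh0 le_rfl hevh
  refine vl_of_mul hvh (mul_ne_zero (leadingCoeff_ne_zero.2 hh0)
    (trailingCoeff_nonzero_iff_nonzero.2 hh0)) ?_
  have h1 : π.leadingCoeff * π.trailingCoeff * (h.leadingCoeff * h.trailingCoeff) =
      (pf (ct t) u).leadingCoeff * (pf (ct t) u).trailingCoeff := by
    rw [hh, leadingCoeff_mul, trailingCoeff_mul]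
    ring
  rw [h1]
  exact vl_mul hvl hvt

end np

end

end Pool.Agent.H900.PN
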