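import Mathlib

/-! # Values of Pfister forms -/

set_option autoImplicit false
set_option linter.unusedSectionVars false

namespace Pool.Agent.H900.PN

noncomputable section

section vl

variable {ι k : Type}

/-- `v` is a value of the Pfister form with the slots `a i`, `i ∈ A` -/
def VA [CommRing k] (A : Finset ι) (a : ι → k) (v : k) : Prop :=
  ∃ u : Finset ι → k, v = ∑ S ∈ A.powerset, (∏ i ∈ S, a i) * u S ^ 2

theorem va_sq [CommRing k] {A : Finset ι} {a : ι → k} {v : k} (h : VA A a v) (c : k) :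
    VA A a (c ^ 2 * v) := by
  obtain ⟨u, rfl⟩ := h
  refine ⟨fun S => c * u S, ?_⟩
  rw [Finset.mul_sum]
  exact Finset.sum_congr rfl fun S _ => by ring

theorem va_insert [CommRing k] [DecidableEq ι] {A : Finset ι} {a : ι → k} {i : ι} (hi : i ∉ A)
    {v : k} : VA (insert i A) a v ↔ ∃ p q, VA A a p ∧ VA A a q ∧ v = p + a i * q := by
  constructor
  · rintro ⟨u, rfl⟩
    refine ⟨_, _, ⟨u, rfl⟩, ⟨fun S => u (insert i S), rfl⟩, ?_⟩
    rw [Finset.sum_powerset_insert hi, Finset.mul_sum]
    congr 1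
    refine Finset.sum_congr rfl fun S hS => ?_
    rw [Finset.prod_insert fun h => hi (Finset.mem_powerset.1 hS h)]
    ring
  · rintro ⟨p, q, ⟨u, rfl⟩, ⟨u', rfl⟩, rfl⟩
    refine ⟨fun S => if i ∈ S then u' (S.erase i) else u S, ?_⟩
    rw [Finset.sum_powerset_insert hi, Finset.mul_sum]
    congr 1
    · refine Finset.sum_congr rfl fun S hS => ?_
      beta_reduce
      rw [if_neg fun h => hi (Finset.mem_powerset.1 hS h)]
    · refine Finset.sum_congr rfl fun S hS => ?_
      have h1 : i ∉ S := fun h => hi (Finset.mem_powerset.1 hS h)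
      beta_reduce
      rw [if_pos (Finset.mem_insert_self i S), Finset.erase_insert h1, Finset.prod_insert h1]
      ring

/-- **The values of a Pfister form are closed under products.** -/
theorem va_mul [Field k] {A : Finset ι} {a : ι → k} : ∀ {v w : k}, VA A a v → VA A a w →
    VA A a (v * w) := by
  classical
  induction A using Finset.induction_on with
  | empty =>
    rintro v w ⟨u, rfl⟩ ⟨u', rfl⟩
    refine ⟨fun S => u S * u' S, ?_⟩
    simp only [Finset.powerset_empty, Finset.sum_singleton, Finset.prod_empty, one_mul]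
    ring
  | insert i A hi ih =>
    intro c w hc hw
    obtain ⟨u, v, hu, hv, rfl⟩ := (va_insert hi).1 hc
    obtain ⟨P, Q, hP, hQ, rfl⟩ := (va_insert hi).1 hw
    rw [va_insert hi]
    by_cases hu0 : u = 0
    · subst hu0
      refine ⟨a i ^ 2 * (v * Q), v * P, va_sq (ih hv hQ) _, ih hv hP, ?_⟩
      ring
    by_cases hv0 : v = 0
    · subst hv0
      refine ⟨u * P, u * Q, ih hu hP, ih hu hQ, ?_⟩
      ring
    have hP' := va_sq (ih hu hP) u⁻¹
    have hQ' := va_sq (ih hv hQ) v⁻¹
    obtain ⟨p, hp⟩ := hP'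
    obtain ⟨q, hq⟩ := hQ'
    have eP : P = u * ∑ S ∈ A.powerset, (∏ i ∈ S, a i) * p S ^ 2 := by
      rw [← hp]
      field_simp
    have eQ : Q = v * ∑ S ∈ A.powerset, (∏ i ∈ S, a i) * q S ^ 2 := by
      rw [← hq]
      field_simp
    refine ⟨∑ S ∈ A.powerset, (∏ i ∈ S, a i) * (u * p S + a i * v * q S) ^ 2,
      u * v * ∑ S ∈ A.powerset, (∏ i ∈ S, a i) * (p S - q S) ^ 2, ⟨_, rfl⟩,
      ih (ih hu hv) ⟨_, rfl⟩, ?_⟩
    rw [eP, eQ]
    simp only [Finset.mul_sum]
    rw [← Finset.sum_add_distrib, ← Finset.sum_add_distrib, Finset.mul_sum]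
    refine Finset.sum_congr rfl fun S _ => ?_
    ring

end vl

section pf

variable {ι k : Type} [Fintype ι]

/-- the Pfister form with the slots `a i` -/
def pf [CommRing k] (a : ι → k) (u : Finset ι → k) : k :=
  ∑ S : Finset ι, (∏ i ∈ S, a i) * u S ^ 2

/-- the Pfister form is anisotropic -/
def Ani [CommRing k] (a : ι → k) : Prop := ∀ u : Finset ι → k, pf a u = 0 → u = 0

/-- `v` is a value of the Pfister form -/
def Vl [CommRing k] (a : ι → k) (v : k) : Prop := ∃ u, v = pf a u

theorem vl_iff [CommRing k] {a : ι → k} {v : k} : Vl a v ↔ VA Finset.univ a v := by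
  unfold Vl VA pf
  rw [Finset.powerset_univ]

theorem vl_mul [Field k] {a : ι → k} {v w : k} (hv : Vl a v) (hw : Vl a w) : Vl a (v * w) :=
  vl_iff.2 (va_mul (vl_iff.1 hv) (vl_iff.1 hw))

theorem vl_sq [CommRing k] {a : ι → k} {v : k} (hv : Vl a v) (c : k) : Vl a (c ^ 2 * v) :=
  vl_iff.2 (va_sq (vl_iff.1 hv) c)

theorem pf_zero [CommRing k] (a : ι → k) : pf a 0 = 0 := by
  unfold pf
  refine Finset.sum_eq_zero fun S _ => ?_
  rw [Pi.zero_apply]
  ring

theorem vl_zero [CommRing k] {a : ι → k} : Vl a 0 := ⟨0, (pf_zero a).symm⟩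

theorem vl_one [CommRing k] {a : ι → k} : Vl a 1 := by
  classical
  refine ⟨fun S => if S = ∅ then 1 else 0, ?_⟩
  unfold pf
  rw [Finset.sum_eq_single ∅]
  · beta_reduce
    rw [Finset.prod_empty, if_pos rfl]
    ring
  · intro S _ hS
    beta_reduce
    rw [if_neg hS]
    ring
  · intro h
    exact absurd (Finset.mem_univ _) h

theorem vl_square [CommRing k] {a : ι → k} (c : k) : Vl a (c ^ 2) := by
  have h := vl_sq (vl_one (a := a)) c
  rwa [mul_one] at h

theorem vl_neg [CommRing k] {a : ι → k} {v e : k} (he : e ^ 2 = -1) (hv : Vl a v) :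
    Vl a (-v) := by
  have h := vl_sq hv e
  rw [he] at h
  have h2 : -v = -1 * v := by ring
  rwa [h2]

/-- if `b` and `a * b` are values, so is `a` -/
theorem vl_of_mul [Field k] {a : ι → k} {v w : k} (hw : Vl a w) (hw0 : w ≠ 0)
    (h : Vl a (v * w)) : Vl a v := by
  have h1 := vl_sq (vl_mul h hw) w⁻¹
  have h2 : w⁻¹ ^ 2 * (v * w * w) = v := by field_simp
  rwa [h2] at h1

theorem vl_mul_iff [Field k] {a : ι → k} {v w : k} (hw : Vl a w) (hw0 : w ≠ 0) :
    Vl a (v * w) ↔ Vl a v := ⟨vl_of_mul hw hw0, fun h => vl_mul h hw⟩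

theorem pf_map {A B : Type} [CommRing A] [CommRing B] (f : A →+* B) (a : ι → A)
    (u : Finset ι → A) : f (pf a u) = pf (fun i => f (a i)) (fun S => f (u S)) := by
  unfold pf
  rw [map_sum]
  refine Finset.sum_congr rfl fun S _ => ?_
  rw [map_mul, map_pow, map_prod]

theorem pf_smul {A : Type} [CommRing A] (a : ι → A) (c : A) (u : Finset ι → A) :
    pf a (fun S => c * u S) = c ^ 2 * pf a u := by
  unfold pf
  rw [Finset.mul_sum]
  exact Finset.sum_congr rfl fun S _ => by ring

end pf

/-- the data of the special cubic -/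
structure Dat (n : ℕ) (ι : Type) where
  /-- the component -/
  side : Fin n → Bool
  /-- the coefficient -/
  sg : Fin n → Finset ι
  /-- the coefficients on each side are different -/
  inj : ∀ i j, side i = side j → sg i = sg j → i = j
  /-- on the second side, the coefficient `1` is not used -/
  ne : ∀ j, side j = true → sg j ≠ ∅

section qf

variable {n : ℕ} {ι : Type} [Fintype ι] (D : Dat n ι)

/-- the quadratic form of a side -/
def qf {A : Type} [CommRing A] (b : Bool) (t : ι → A) (x : Fin n → A) : A :=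
  ∑ j, if D.side j = b then (∏ i ∈ D.sg j, t i) * x j ^ 2 else 0

theorem qf_map {A B : Type} [CommRing A] [CommRing B] (f : A →+* B) (b : Bool) (t : ι → A)
    (x : Fin n → A) : f (qf D b t x) = qf D b (fun i => f (t i)) (fun j => f (x j)) := by
  unfold qf
  rw [map_sum]
  refine Finset.sum_congr rfl fun j _ => ?_
  split_ifs
  · rw [map_mul, map_pow, map_prod]
  · rw [map_zero]

theorem qf_smul {A : Type} [CommRing A] (b : Bool) (t : ι → A) (c : A) (x : Fin n → A) :
    qf D b t (fun j => c * x j) = c ^ 2 * qf D b t x := by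
  unfold qf
  rw [Finset.mul_sum]
  refine Finset.sum_congr rfl fun j _ => ?_
  split_ifs <;> ring

theorem qf_congr {A : Type} [CommRing A] (b : Bool) (t : ι → A) {x x' : Fin n → A}
    (h : ∀ j, D.side j = b → x j = x' j) : qf D b t x = qf D b t x' := by
  unfold qf
  refine Finset.sum_congr rfl fun j _ => ?_
  split_ifs with hj
  · rw [h j hj]
  · rfl

open Classical in
/-- the vector of the Pfister form -/
def emb {A : Type} [CommRing A] (b : Bool) (x : Fin n → A) (S : Finset ι) : A :=
  ∑ j, if D.side j = b ∧ D.sg j = S then x j else 0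

theorem emb_sg {A : Type} [CommRing A] (b : Bool) (x : Fin n → A) (j : Fin n)
    (hj : D.side j = b) : emb D b x (D.sg j) = x j := by
  classical
  unfold emb
  rw [Finset.sum_eq_single j]
  · rw [if_pos ⟨hj, rfl⟩]
  · intro i _ hi
    rw [if_neg]
    rintro ⟨h1, h2⟩
    exact hi (D.inj i j (h1.trans hj.symm) h2)
  · intro h
    exact absurd (Finset.mem_univ _) h

theorem emb_sq {A : Type} [CommRing A] (b : Bool) (x : Fin n → A) (S : Finset ι) :
    emb D b x S ^ 2 = ∑ j, open Classical in if D.side j = b ∧ D.sg j = S then x j ^ 2 else 0 := by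
  classical
  by_cases h : ∃ j, D.side j = b ∧ D.sg j = S
  · obtain ⟨j, h1, rfl⟩ := h
    rw [emb_sg D b x j h1, Finset.sum_eq_single j]
    · rw [if_pos ⟨h1, rfl⟩]
    · intro i _ hi
      rw [if_neg]
      rintro ⟨h2, h3⟩
      exact hi (D.inj i j (h2.trans h1.symm) h3)
    · intro h
      exact absurd (Finset.mem_univ _) h
  · have h0 : emb D b x S = 0 := Finset.sum_eq_zero fun j _ => if_neg fun h' => h ⟨j, h'⟩
    rw [h0, Finset.sum_eq_zero fun j _ => if_neg fun h' => h ⟨j, h'⟩]
    ring

theorem pf_emb {A : Type} [CommRing A] (b : Bool) (t : ι → A) (x : Fin n → A) :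
    pf t (emb D b x) = qf D b t x := by
  classical
  unfold pf qf
  simp only [emb_sq, Finset.mul_sum]
  rw [Finset.sum_comm]
  refine Finset.sum_congr rfl fun j _ => ?_
  by_cases hj : D.side j = b
  · rw [if_pos hj, Finset.sum_eq_single (D.sg j)]
    · rw [if_pos ⟨hj, rfl⟩]
    · intro S _ hS
      rw [if_neg fun h => hS h.2.symm, mul_zero]
    · intro h
      exact absurd (Finset.mem_univ _) h
  · rw [if_neg hj]
    refine Finset.sum_eq_zero fun S _ => ?_
    rw [if_neg fun h => hj h.1, mul_zero]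

theorem sub0 {A : Type} [CommRing A] (b : Bool) (t : ι → A) (x : Fin n → A) :
    ∃ u, qf D b t x = pf t u ∧ (u = 0 → ∀ j, D.side j = b → x j = 0) := by
  refine ⟨emb D b x, (pf_emb D b t x).symm, fun h j hj => ?_⟩
  rw [← emb_sg D b x j hj, h]
  rfl

theorem emb_empty {A : Type} [CommRing A] (x : Fin n → A) : emb D true x ∅ = 0 := by
  classical
  refine Finset.sum_eq_zero fun j _ => if_neg ?_
  rintro ⟨h1, h2⟩
  exact D.ne j h1 h2

theorem sub1 {A : Type} [CommRing A] (t : ι → A) (x : Fin n → A) (z : A) :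
    ∃ u, qf D true t x + z ^ 2 = pf t u ∧
      (u = 0 → z = 0 ∧ ∀ j, D.side j = true → x j = 0) := by
  classical
  refine ⟨Function.update (emb D true x) ∅ z, ?_, fun h => ⟨?_, fun j hj => ?_⟩⟩
  · rw [← pf_emb D true t x]
    unfold pf
    rw [← Finset.add_sum_erase Finset.univ
      (fun S => (∏ i ∈ S, t i) * Function.update (emb D true x) ∅ z S ^ 2)
      (Finset.mem_univ (∅ : Finset ι)),
      ← Finset.add_sum_erase Finset.univ (fun S => (∏ i ∈ S, t i) * emb D true x S ^ 2)
      (Finset.mem_univ (∅ : Finset ι)), emb_empty, Function.update_self, Finset.prod_empty]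
    have h1 : ∑ S ∈ Finset.univ.erase (∅ : Finset ι),
        (∏ i ∈ S, t i) * Function.update (emb D true x) ∅ z S ^ 2 =
        ∑ S ∈ Finset.univ.erase (∅ : Finset ι), (∏ i ∈ S, t i) * emb D true x S ^ 2 := by
      refine Finset.sum_congr rfl fun S hS => ?_
      rw [Function.update_of_ne (Finset.ne_of_mem_erase hS)]
    rw [h1]
    ring
  · have := congrFun h ∅
    rwa [Function.update_self] at this
  · have h1 := congrFun h (D.sg j)
    rw [Function.update_of_ne (D.ne j hj), emb_sg D true x j hj] at h1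
    exact h1

end qf

end

end Pool.Agent.H900.PN
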